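import Mathlib

set_option autoImplicit false

/-! The derivation `d/dt` of the field of rational functions and the definition of the integers
by `n' = 0`, `t y' = n y`, `y ≠ 0`. -/

namespace Pool.Agent.H585R2.DiffC

open Polynomial

variable {k : Type*} [Field k]

/-- the value of the derivative for a numerator and a denominator -/
noncomputable def dq (p q : k[X]) : RatFunc k :=
  algebraMap _ _ (derivative p * q - p * derivative q) / algebraMap _ _ (q ^ 2)

theorem am_ne {q : k[X]} (hq : q ≠ 0) : (algebraMap k[X] (RatFunc k) q) ≠ 0 :=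
  RatFunc.algebraMap_ne_zero hq

theorem dq_congr {p q p' q' : k[X]} (hq : q ≠ 0) (hq' : q' ≠ 0) (h : p * q' = p' * q) :
    dq p q = dq p' q' := by
  unfold dq
  rw [div_eq_div_iff (am_ne (pow_ne_zero 2 hq)) (am_ne (pow_ne_zero 2 hq')), ← map_mul, ← map_mul]
  congr 1
  have h1 := congrArg derivative h
  rw [derivative_mul, derivative_mul] at h1
  linear_combination (q * q') * h1 - (derivative q * q' + q * derivative q') * h

/-- the derivative -/
noncomputable def dd (f : RatFunc k) : RatFunc k := dq f.num f.denom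

theorem dd_div (p : k[X]) {q : k[X]} (hq : q ≠ 0) :
    dd (algebraMap _ _ p / algebraMap _ _ q) = dq p q := by
  unfold dd
  refine dq_congr (RatFunc.denom_ne_zero _) hq ?_
  have h := RatFunc.num_div_denom (algebraMap k[X] (RatFunc k) p / algebraMap _ _ q)
  rw [div_eq_div_iff (am_ne (RatFunc.denom_ne_zero _)) (am_ne hq), ← map_mul, ← map_mul] at h
  exact RatFunc.algebraMap_injective k h

theorem exists_div (f : RatFunc k) : ∃ p q : k[X], q ≠ 0 ∧
    f = algebraMap _ _ p / algebraMap _ _ q :=
  ⟨f.num, f.denom, RatFunc.denom_ne_zero f, (RatFunc.num_div_denom f).symm⟩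

theorem dd_add (f g : RatFunc k) : dd (f + g) = dd f + dd g := by
  obtain ⟨p, q, hq, rfl⟩ := exists_div f
  obtain ⟨r, s, hs, rfl⟩ := exists_div g
  have e : (algebraMap k[X] (RatFunc k) p / algebraMap _ _ q + algebraMap _ _ r / algebraMap _ _ s)
      = algebraMap _ _ (p * s + r * q) / algebraMap _ _ (q * s) := by
    have h1 := am_ne hq
    have h2 := am_ne hs
    simp only [map_add, map_mul]
    field_simp
  rw [e, dd_div _ (mul_ne_zero hq hs), dd_div _ hq, dd_div _ hs]
  unfold dq
  have h1 := am_ne hq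
  have h2 := am_ne hs
  simp only [map_add, map_mul, map_sub, map_pow, derivative_add, derivative_mul]
  field_simp
  ring

theorem dd_mul (f g : RatFunc k) : dd (f * g) = f * dd g + g * dd f := by
  obtain ⟨p, q, hq, rfl⟩ := exists_div f
  obtain ⟨r, s, hs, rfl⟩ := exists_div g
  have e : (algebraMap k[X] (RatFunc k) p / algebraMap _ _ q * (algebraMap _ _ r / algebraMap _ _ s))
      = algebraMap _ _ (p * r) / algebraMap _ _ (q * s) := by
    have h1 := am_ne hq
    have h2 := am_ne hs
    simp only [map_mul]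
    field_simp
  rw [e, dd_div _ (mul_ne_zero hq hs), dd_div _ hq, dd_div _ hs]
  unfold dq
  have h1 := am_ne hq
  have h2 := am_ne hs
  simp only [map_add, map_mul, map_sub, map_pow, derivative_mul]
  field_simp
  ring

theorem dd_poly (p : k[X]) : dd (algebraMap _ _ p) = algebraMap k[X] (RatFunc k) (derivative p) := by
  have h : (algebraMap k[X] (RatFunc k) p) = algebraMap _ _ p / algebraMap k[X] _ 1 := by simp
  rw [h, dd_div _ one_ne_zero]
  simp [dq]

theorem algebraMap_C (c : k) : algebraMap k (RatFunc k) c = algebraMap k[X] (RatFunc k) (C c) := by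
  rw [RatFunc.algebraMap_C, RatFunc.algebraMap_eq_C]

theorem dd_smul (c : k) (f : RatFunc k) : dd (c • f) = c • dd f := by
  rw [Algebra.smul_def, Algebra.smul_def, dd_mul, algebraMap_C, dd_poly]
  simp

/-- The derivation `d/dt`. -/
noncomputable def ddt : Derivation k (RatFunc k) (RatFunc k) where
  toFun := dd
  map_add' := dd_add
  map_smul' := dd_smul
  map_one_eq_zero' := by
    have h : (1 : RatFunc k) = algebraMap k[X] (RatFunc k) 1 := by simp
    change dd (1 : RatFunc k) = 0
    rw [h, dd_poly]; simp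
  leibniz' := fun f g => by
    change dd (f * g) = f • dd g + g • dd f
    rw [dd_mul]; rfl

theorem ddt_X : (ddt : Derivation k (RatFunc k) (RatFunc k)) RatFunc.X = 1 := by
  change dd RatFunc.X = 1
  rw [← RatFunc.algebraMap_X, dd_poly]
  simp

variable (D : Derivation k (RatFunc k) (RatFunc k)) (hD : D RatFunc.X = 1)

include hD

theorem D_poly (p : k[X]) : D (algebraMap _ _ p) = algebraMap k[X] (RatFunc k) (derivative p) := by
  induction p using Polynomial.induction_on' with
  | add p q hp hq => simp [hp, hq]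
  | monomial n a =>
    rw [← C_mul_X_pow_eq_monomial, map_mul, map_pow, RatFunc.algebraMap_X, ← algebraMap_C,
      Derivation.leibniz, Derivation.leibniz_pow, hD, Derivation.map_algebraMap]
    simp only [smul_zero, add_zero, smul_eq_mul, derivative_mul, derivative_C, zero_mul, zero_add,
      derivative_X_pow, map_mul, map_pow, RatFunc.algebraMap_X, algebraMap_C, nsmul_eq_mul]
    simp

theorem D_div (p : k[X]) {q : k[X]} (hq : q ≠ 0) :
    D (algebraMap _ _ p / algebraMap _ _ q) * algebraMap _ _ (q ^ 2) =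
      algebraMap k[X] (RatFunc k) (derivative p * q - p * derivative q) := by
  have h1 := am_ne hq
  have h2 : D (algebraMap _ _ p / algebraMap _ _ q * algebraMap _ _ q) =
      algebraMap k[X] (RatFunc k) (derivative p) := by
    rw [div_mul_cancel₀ _ h1, D_poly D hD]
  rw [Derivation.leibniz, D_poly D hD, smul_eq_mul, smul_eq_mul] at h2
  rw [map_sub, map_mul, map_mul, ← h2, map_pow]
  field_simp
  ring

/-- constants -/
theorem const_of_D_eq_zero [CharZero k] (f : RatFunc k) (hf : D f = 0) :
    ∃ c : k, f = algebraMap k _ c := by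
  obtain ⟨p, q, hcop, hq, rfl⟩ : ∃ p q : k[X], IsCoprime p q ∧ q ≠ 0 ∧
      f = algebraMap _ _ p / algebraMap _ _ q :=
    ⟨f.num, f.denom, RatFunc.isCoprime_num_denom f, RatFunc.denom_ne_zero f,
      (RatFunc.num_div_denom f).symm⟩
  have h := D_div D hD p hq
  rw [hf, zero_mul] at h
  have h' : derivative p * q - p * derivative q = 0 :=
    RatFunc.algebraMap_injective k (by rw [← h, map_zero])
  have h1 : q ∣ derivative q := by
    refine hcop.symm.dvd_of_dvd_mul_left ?_
    exact ⟨derivative p, by linear_combination -h'⟩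
  have h2 : derivative q = 0 := by
    by_contra h3
    have h4 := Polynomial.natDegree_le_of_dvd h1 h3
    rcases Nat.eq_zero_or_pos q.natDegree with h5 | h5
    · rw [Polynomial.eq_C_of_natDegree_eq_zero h5] at h3
      simp at h3
    · have := Polynomial.natDegree_derivative_lt h5.ne'
      omega
  have h3 : derivative p = 0 := by
    rw [h2, mul_zero, sub_zero] at h'
    rcases mul_eq_zero.1 h' with h4 | h4
    · exact h4
    · exact absurd h4 hq
  have h4 := Polynomial.natDegree_eq_zero_of_derivative_eq_zero h2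
  have h5 := Polynomial.natDegree_eq_zero_of_derivative_eq_zero h3
  rw [Polynomial.eq_C_of_natDegree_eq_zero h4, Polynomial.eq_C_of_natDegree_eq_zero h5]
  refine ⟨p.coeff 0 / q.coeff 0, ?_⟩
  rw [← algebraMap_C, ← algebraMap_C, map_div₀]

/-- The integers are defined by `n' = 0 ∧ ∃ y ≠ 0, t y' = n y`. -/
theorem int_iff [CharZero k] (f : RatFunc k) :
    (D f = 0 ∧ ∃ y : RatFunc k, y ≠ 0 ∧ RatFunc.X * D y = f * y) ↔ ∃ m : ℤ, f = m := by
  constructor
  · rintro ⟨h0, y, hy, h⟩
    obtain ⟨c, rfl⟩ := const_of_D_eq_zero D hD f h0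
    obtain ⟨p, q, hq, rfl⟩ := exists_div y
    have hp : p ≠ 0 := by
      rintro rfl
      simp at hy
    have h1 := D_div D hD p hq
    have h2 : (X : k[X]) * (derivative p * q - p * derivative q) = C c * (p * q) := by
      apply RatFunc.algebraMap_injective k
      rw [map_mul, ← h1, RatFunc.algebraMap_X, ← mul_assoc, h, map_mul, ← algebraMap_C, map_mul,
        map_pow]
      have := am_ne hq
      field_simp
    obtain ⟨a, p1, hp1, rfl⟩ := (⟨_, _, (Polynomial.exists_eq_pow_rootMultiplicity_mul_and_not_dvd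
      p hp 0).choose_spec.2, (Polynomial.exists_eq_pow_rootMultiplicity_mul_and_not_dvd
      p hp 0).choose_spec.1⟩ : ∃ (a : ℕ) (p1 : k[X]), ¬ (X - C 0) ∣ p1 ∧ p = (X - C 0) ^ a * p1)
    obtain ⟨b, q1, hq1, rfl⟩ := (⟨_, _, (Polynomial.exists_eq_pow_rootMultiplicity_mul_and_not_dvd
      q hq 0).choose_spec.2, (Polynomial.exists_eq_pow_rootMultiplicity_mul_and_not_dvd
      q hq 0).choose_spec.1⟩ : ∃ (a : ℕ) (p1 : k[X]), ¬ (X - C 0) ∣ p1 ∧ q = (X - C 0) ^ a * p1)
    refine ⟨(a : ℤ) - b, ?_⟩
    have key : ∀ (n : ℕ) (r : k[X]), (X : k[X]) * derivative ((X - C 0) ^ n * r) =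
        (X - C 0) ^ n * (C (n : k) * r + X * derivative r) := by
      intro n r
      rw [C_0, sub_zero, derivative_mul, derivative_X_pow]
      rcases n with _ | n
      · simp
      · simp only [Nat.add_sub_cancel]
        push_cast
        ring
    have h3 : ((X - C 0) ^ a * (X - C 0) ^ b : k[X]) *
        ((C (a : k) * p1 + X * derivative p1) * q1 - p1 * (C (b : k) * q1 + X * derivative q1))
        = ((X - C 0) ^ a * (X - C 0) ^ b : k[X]) * (C c * (p1 * q1)) := by
      have k1 := key a p1
      have k2 := key b q1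
      linear_combination h2 - ((X - C 0) ^ b * q1) * k1 + ((X - C 0) ^ a * p1) * k2
    have hX : ((X - C 0) ^ a * (X - C 0) ^ b : k[X]) ≠ 0 :=
      mul_ne_zero (pow_ne_zero _ (X_sub_C_ne_zero 0)) (pow_ne_zero _ (X_sub_C_ne_zero 0))
    have h4 := mul_left_cancel₀ hX h3
    have h5 := congrArg (Polynomial.eval 0) h4
    simp only [eval_sub, eval_mul, eval_add, eval_C, eval_X, zero_mul, add_zero] at h5
    have e1 : p1.eval 0 ≠ 0 := fun h => hp1 (Polynomial.dvd_iff_isRoot.2 h)
    have e2 : q1.eval 0 ≠ 0 := fun h => hq1 (Polynomial.dvd_iff_isRoot.2 h)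
    have h6 : c = (a : k) - b := by
      have h7 : (c - ((a : k) - b)) * (p1.eval 0 * q1.eval 0) = 0 := by
        linear_combination -h5
      rcases mul_eq_zero.1 h7 with h8 | h8
      · linear_combination h8
      · exact absurd h8 (mul_ne_zero e1 e2)
    rw [h6, map_sub, map_natCast, map_natCast]
    push_cast
    rfl
  · rintro ⟨m, rfl⟩
    refine ⟨by simp, RatFunc.X ^ m, zpow_ne_zero _ RatFunc.X_ne_zero, ?_⟩
    rw [Derivation.leibniz_zpow, hD]
    simp only [smul_eq_mul, mul_one, zsmul_eq_mul]
    have hX : (RatFunc.X : RatFunc k) ≠ 0 := RatFunc.X_ne_zero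
    rw [zpow_sub_one₀ hX]
    field_simp

end Pool.Agent.H585R2.DiffC
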