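import Mathlib

set_option autoImplicit false

/-! Cubic extensions `t ^ 3 = h(x)` of a rational function field: basis and integral elements. -/

namespace Pool.Agent.H585R2.FF

open Polynomial

section poly

variable {k : Type*} [Field k]

/-- a squarefree polynomial has no square divisors -/
theorem exists_irr {h : k[X]} (hpos : 0 < h.natDegree) : ∃ π : k[X], Irreducible π ∧ π ∣ h := by
  apply WfDvdMonoid.exists_irreducible_factor
  · intro hu
    rw [Polynomial.isUnit_iff] at hu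
    obtain ⟨c, -, rfl⟩ := hu
    simp at hpos
  · rintro rfl
    simp at hpos

theorem not_sq_dvd {h π : k[X]} (hs : Squarefree h) (hπ : Irreducible π) : ¬ π ^ 2 ∣ h := by
  intro hd
  rw [pow_two] at hd
  exact hπ.not_isUnit (hs π hd)

/-- `T ^ 3 - h` is irreducible over `k[X]` -/
theorem irr_cubic {h : k[X]} (hs : Squarefree h) (hpos : 0 < h.natDegree) :
    Irreducible (X ^ 3 - C h : k[X][X]) := by
  obtain ⟨π, hπ, hd⟩ := exists_irr hpos
  have hm : (X ^ 3 - C h : k[X][X]).Monic := monic_X_pow_sub_C h (by norm_num)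
  have hnd : (X ^ 3 - C h : k[X][X]).natDegree = 3 := natDegree_X_pow_sub_C
  have hprime : (Ideal.span {π}).IsPrime := by
    rw [Ideal.span_singleton_prime hπ.ne_zero]
    exact hπ.prime
  refine IsEisensteinAt.irreducible (𝓟 := Ideal.span {π}) ⟨?_, ?_, ?_⟩ hprime hm.isPrimitive
    (by rw [hnd]; norm_num)
  · rw [hm.leadingCoeff]
    exact fun h1 => hprime.ne_top ((Ideal.eq_top_iff_one _).2 h1)
  · intro n hn
    rw [hnd] at hn
    rw [Ideal.mem_span_singleton]
    interval_cases n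
    · simp only [coeff_sub, coeff_X_pow, coeff_C_zero]
      simpa using hd
    · simp [coeff_X_pow]
    · simp [coeff_X_pow]
  · rw [Ideal.span_singleton_pow, Ideal.mem_span_singleton]
    intro h1
    apply not_sq_dvd hs hπ
    simpa [coeff_X_pow] using h1

/-- `P ^ 3 h ^ m = g Q ^ 3` with `P, Q` coprime, `m ≤ 2`, `h` squarefree: `Q` is a unit -/
theorem unit_of_cube {h P Q g : k[X]} (hs : Squarefree h) (hcop : IsCoprime P Q) {m : ℕ}
    (hm : m ≤ 2) (he : P ^ 3 * h ^ m = g * Q ^ 3) : IsUnit Q := by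
  by_contra hu
  have hh0 : h ≠ 0 := hs.ne_zero
  by_cases hQ : Q = 0
  · subst hQ
    have hP : IsUnit P := isCoprime_zero_right.1 hcop
    have : P ^ 3 * h ^ m = 0 := by rw [he]; ring
    exact mul_ne_zero (pow_ne_zero _ hP.ne_zero) (pow_ne_zero _ hh0) this
  obtain ⟨π, hπ, hd⟩ := WfDvdMonoid.exists_irreducible_factor hu hQ
  have h1 : Q ^ 3 ∣ h ^ m := by
    have : Q ^ 3 ∣ P ^ 3 * h ^ m := ⟨g, by rw [he]; ring⟩
    exact (IsCoprime.pow hcop.symm).dvd_of_dvd_mul_left this
  have h2 : π ^ 3 ∣ h ^ 2 := (pow_dvd_pow_of_dvd hd 3).trans (h1.trans (pow_dvd_pow h hm))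
  have h3 : π ∣ h := hπ.prime.dvd_of_dvd_pow ((dvd_pow_self π (by norm_num)).trans h2)
  obtain ⟨w, rfl⟩ := h3
  have h4 : π ∣ w ^ 2 := by
    have h5 : π ^ 2 * π ∣ π ^ 2 * w ^ 2 := by
      convert h2 using 1 <;> ring
    exact (mul_dvd_mul_iff_left (pow_ne_zero 2 hπ.ne_zero)).1 h5
  have h5 : π ∣ w := hπ.prime.dvd_of_dvd_pow h4
  exact not_sq_dvd hs hπ (by rw [pow_two]; exact mul_dvd_mul_left π h5)

end poly

section frac

variable {k K : Type*} [Field k] [Field K] [Algebra k[X] K] [IsFractionRing k[X] K]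

theorem exists_coprime (c : K) : ∃ P Q : k[X], IsCoprime P Q ∧ Q ≠ 0 ∧
    c = algebraMap k[X] K P / algebraMap k[X] K Q := by
  obtain ⟨P, Q, hcop, he⟩ := IsFractionRing.exists_reduced_fraction (A := k[X]) (K := K) c
  refine ⟨P, Q, hcop.isCoprime, nonZeroDivisors.ne_zero Q.2, ?_⟩
  rw [← he, IsFractionRing.mk'_eq_div]

/-- `c ^ 3 h ^ m` polynomial implies `c` polynomial -/
theorem poly_of_cube {h : k[X]} (hs : Squarefree h) {m : ℕ} (hm : m ≤ 2) {c : K} {g : k[X]}
    (he : c ^ 3 * algebraMap k[X] K h ^ m = algebraMap k[X] K g) :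
    ∃ p : k[X], c = algebraMap k[X] K p := by
  obtain ⟨P, Q, hcop, hQ, rfl⟩ := exists_coprime (k := k) c
  have hQ' : algebraMap k[X] K Q ≠ 0 := by
    rw [Ne, IsFractionRing.to_map_eq_zero_iff]; exact hQ
  have h1 : P ^ 3 * h ^ m = g * Q ^ 3 := by
    apply IsFractionRing.injective k[X] K
    simp only [map_mul, map_pow]
    rw [← he]
    field_simp
  have h2 := unit_of_cube hs hcop hm h1
  rw [Polynomial.isUnit_iff] at h2
  obtain ⟨q, hq, rfl⟩ := h2
  refine ⟨C q⁻¹ * P, ?_⟩
  rw [div_eq_iff hQ', ← map_mul]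
  congr 1
  have : C q⁻¹ * C q = (1 : k[X]) := by rw [← C_mul, inv_mul_cancel₀ hq.ne_zero, C_1]
  linear_combination (-P) * this

theorem poly_of_integral {c : K} (hc : IsIntegral k[X] c) : ∃ p : k[X], c = algebraMap k[X] K p := by
  obtain ⟨p, hp⟩ := (IsIntegrallyClosed.isIntegral_iff (R := k[X])).1 hc
  exact ⟨p, hp.symm⟩

end frac

section cub

variable {K : Type*} [Field K]

theorem cub_natDegree (A B D : K) : (X ^ 3 + C A * X ^ 2 + C B * X + C D : K[X]).natDegree = 3 := by
  compute_degree!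

theorem cub_coeff0 (A B D : K) : (X ^ 3 + C A * X ^ 2 + C B * X + C D : K[X]).coeff 0 = D := by
  simp

theorem cub_coeff1 (A B D : K) : (X ^ 3 + C A * X ^ 2 + C B * X + C D : K[X]).coeff 1 = B := by
  simp [coeff_X, coeff_C, coeff_X_pow]

theorem cub_coeff2 (A B D : K) : (X ^ 3 + C A * X ^ 2 + C B * X + C D : K[X]).coeff 2 = A := by
  simp [coeff_X, coeff_C, coeff_X_pow]

theorem cub_monic (A B D : K) : (X ^ 3 + C A * X ^ 2 + C B * X + C D : K[X]).Monic := by
  rw [Monic, leadingCoeff, cub_natDegree]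
  simp [coeff_X, coeff_C, coeff_X_pow]

end cub

section cubic

variable {k K F : Type*} [Field k] [Field K] [Algebra k[X] K] [IsFractionRing k[X] K]
  [Field F] [Algebra K F] [Algebra k[X] F] [IsScalarTower k[X] K F] {h : k[X]} {t : F}

theorem minpoly_t (hs : Squarefree h) (hpos : 0 < h.natDegree)
    (ht : t ^ 3 = algebraMap k[X] F h) :
    minpoly K t = X ^ 3 - C (algebraMap k[X] K h) := by
  have h1 := irr_cubic hs hpos
  have hm : (X ^ 3 - C h : k[X][X]).Monic := monic_X_pow_sub_C h (by norm_num)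
  have h2 := (hm.irreducible_iff_irreducible_map_fraction_map (K := K)).1 h1
  have h3 : (X ^ 3 - C h : k[X][X]).map (algebraMap k[X] K) = X ^ 3 - C (algebraMap k[X] K h) := by
    simp
  rw [h3] at h2
  refine (minpoly.eq_of_irreducible_of_monic h2 ?_ (monic_X_pow_sub_C _ (by norm_num))).symm
  simp only [map_sub, map_pow, aeval_X, aeval_C, ht]
  rw [← IsScalarTower.algebraMap_apply, sub_self]

/-- uniqueness of coordinates -/
theorem coord_zero (hs : Squarefree h) (hpos : 0 < h.natDegree)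
    (ht : t ^ 3 = algebraMap k[X] F h) {c₀ c₁ c₂ : K}
    (he : algebraMap K F c₀ + algebraMap K F c₁ * t + algebraMap K F c₂ * t ^ 2 = 0) :
    c₀ = 0 ∧ c₁ = 0 ∧ c₂ = 0 := by
  have hmin := minpoly_t (K := K) hs hpos ht
  have hnd : (minpoly K t).natDegree = 3 := by rw [hmin]; exact natDegree_X_pow_sub_C
  let p : K[X] := C c₂ * X ^ 2 + C c₁ * X + C c₀
  have hp : aeval t p = 0 := by
    simp only [p, map_add, map_mul, aeval_C, aeval_X, map_pow]
    rw [← he]; ring
  have hp0 : p = 0 := by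
    by_contra h0
    have h1 := minpoly.degree_le_of_ne_zero K t h0 hp
    have h2 : p.degree ≤ 2 := degree_quadratic_le
    rw [degree_eq_natDegree (minpoly.ne_zero (A := K) (x := t) ?_), hnd] at h1
    · have := h1.trans h2
      norm_num at this
    · refine ⟨X ^ 3 - C (algebraMap k[X] K h), monic_X_pow_sub_C _ (by norm_num), ?_⟩
      simp only [eval₂_sub, eval₂_pow, eval₂_X, eval₂_C, ht]
      rw [← IsScalarTower.algebraMap_apply, sub_self]
  refine ⟨?_, ?_, ?_⟩
  · have := congrArg (fun q => q.coeff 0) hp0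
    simpa [p] using this
  · have := congrArg (fun q => q.coeff 1) hp0
    simpa [p, coeff_X, coeff_C] using this
  · have := congrArg (fun q => q.coeff 2) hp0
    simpa [p, coeff_X, coeff_C] using this

/-- coordinates are unique -/
theorem coord_eq (hs : Squarefree h) (hpos : 0 < h.natDegree)
    (ht : t ^ 3 = algebraMap k[X] F h) {c₀ c₁ c₂ d₀ d₁ d₂ : K}
    (he : algebraMap K F c₀ + algebraMap K F c₁ * t + algebraMap K F c₂ * t ^ 2 =
      algebraMap K F d₀ + algebraMap K F d₁ * t + algebraMap K F d₂ * t ^ 2) :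
    c₀ = d₀ ∧ c₁ = d₁ ∧ c₂ = d₂ := by
  have := coord_zero (K := K) (c₀ := c₀ - d₀) (c₁ := c₁ - d₁) (c₂ := c₂ - d₂) hs hpos ht (by
    simp only [map_sub]
    linear_combination he)
  simpa [sub_eq_zero] using this

theorem isIntegral_t (ht : t ^ 3 = algebraMap k[X] F h) : IsIntegral K t := by
  refine ⟨X ^ 3 - C (algebraMap k[X] K h), monic_X_pow_sub_C _ (by norm_num), ?_⟩
  simp only [eval₂_sub, eval₂_pow, eval₂_X, eval₂_C, ht]
  rw [← IsScalarTower.algebraMap_apply, sub_self]

/-- coordinates exist -/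
theorem exists_coord (ht : t ^ 3 = algebraMap k[X] F h)
    (hgen : IntermediateField.adjoin K {t} = ⊤) (y : F) :
    ∃ c₀ c₁ c₂ : K, y = algebraMap K F c₀ + algebraMap K F c₁ * t + algebraMap K F c₂ * t ^ 2 := by
  have hint := isIntegral_t (K := K) ht
  have h1 : Algebra.adjoin K {t} = ⊤ := by
    have := IntermediateField.adjoin_simple_toSubalgebra_of_isAlgebraic hint.isAlgebraic
    rw [← this, hgen, IntermediateField.top_toSubalgebra]
  have h2 : y ∈ Algebra.adjoin K {t} := by rw [h1]; trivial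
  rw [Algebra.adjoin_singleton_eq_range_aeval] at h2
  obtain ⟨p, hp⟩ := h2
  let q : K[X] := X ^ 3 - C (algebraMap k[X] K h)
  have hq : q.Monic := monic_X_pow_sub_C _ (by norm_num)
  have hqt : aeval t q = 0 := by
    simp only [q, map_sub, map_pow, aeval_X, aeval_C, ht]
    rw [← IsScalarTower.algebraMap_apply, sub_self]
  have h3 : aeval t (p %ₘ q) = y := by
    have := congrArg (aeval t) (modByMonic_add_div p q)
    rw [map_add, map_mul, hqt, zero_mul, add_zero] at this
    rw [this, ← hp]; rfl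
  have h4 : (p %ₘ q).natDegree < 3 := by
    have := natDegree_modByMonic_lt p hq (by
      intro h5
      have h6 : q.natDegree = 3 := natDegree_X_pow_sub_C
      rw [h5] at h6
      simp at h6)
    rwa [show q.natDegree = 3 from natDegree_X_pow_sub_C] at this
  refine ⟨(p %ₘ q).coeff 0, (p %ₘ q).coeff 1, (p %ₘ q).coeff 2, ?_⟩
  rw [← h3, aeval_eq_sum_range' h4]
  simp only [Finset.sum_range_succ, Finset.sum_range_zero, Algebra.smul_def, pow_zero, pow_one]
  ring

theorem finrank_eq (hs : Squarefree h) (hpos : 0 < h.natDegree)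
    (ht : t ^ 3 = algebraMap k[X] F h) (hgen : IntermediateField.adjoin K {t} = ⊤) :
    Module.finrank K F = 3 := by
  have h1 := IntermediateField.adjoin.finrank (isIntegral_t (K := K) ht)
  rw [hgen, minpoly_t hs hpos ht, natDegree_X_pow_sub_C] at h1
  rw [← h1]
  exact (IntermediateField.finrank_top' (F := K) (E := F)).symm

/-- elements integral over `k[X]` have polynomial coordinates -/
theorem integral_coord [CharZero k] (hs : Squarefree h) (hpos : 0 < h.natDegree)
    (ht : t ^ 3 = algebraMap k[X] F h) (hgen : IntermediateField.adjoin K {t} = ⊤) {y : F}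
    (hy : IsIntegral k[X] y) : ∃ p q r : k[X],
      y = algebraMap k[X] F p + algebraMap k[X] F q * t + algebraMap k[X] F r * t ^ 2 := by
  obtain ⟨c₀, c₁, c₂, rfl⟩ := exists_coord (K := K) ht hgen y
  suffices hsuff : (∃ p : k[X], c₀ = algebraMap k[X] K p) ∧ (∃ p : k[X], c₁ = algebraMap k[X] K p) ∧
      (∃ p : k[X], c₂ = algebraMap k[X] K p) by
    obtain ⟨⟨p, rfl⟩, ⟨q, rfl⟩, ⟨r, rfl⟩⟩ := hsuff
    exact ⟨p, q, r, by simp only [← IsScalarTower.algebraMap_apply]⟩
  set y := algebraMap K F c₀ + algebraMap K F c₁ * t + algebraMap K F c₂ * t ^ 2 with hydef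
  by_cases hrat : c₁ = 0 ∧ c₂ = 0
  · obtain ⟨rfl, rfl⟩ := hrat
    refine ⟨?_, ⟨0, by simp⟩, ⟨0, by simp⟩⟩
    have : y = algebraMap K F c₀ := by rw [hydef]; simp
    rw [this] at hy
    exact poly_of_integral ((isIntegral_algebraMap_iff (algebraMap K F).injective).1 hy)
  · have hfin := finrank_eq (K := K) hs hpos ht hgen
    haveI : FiniteDimensional K F := Module.finite_of_finrank_pos (by rw [hfin]; norm_num)
    have hyK : IsIntegral K y := hy.tower_top
    have hdeg : (minpoly K y).natDegree = 3 := by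
      have h1 := minpoly.degree_dvd hyK
      rw [hfin] at h1
      rcases (Nat.dvd_prime Nat.prime_three).1 h1 with h2 | h2
      · exfalso
        obtain ⟨c, hc⟩ := minpoly.natDegree_eq_one_iff.1 h2
        have h3 := coord_eq (K := K) (c₀ := c) (c₁ := 0) (c₂ := 0) (d₀ := c₀) (d₁ := c₁) (d₂ := c₂)
          hs hpos ht (by rw [← hydef, ← hc]; simp)
        exact hrat ⟨h3.2.1.symm, h3.2.2.symm⟩
      · exact h2
    let H : K := algebraMap k[X] K h
    have hH : algebraMap K F H = t ^ 3 := by rw [ht, IsScalarTower.algebraMap_apply k[X] K F]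
    let N : K := c₀ ^ 3 + c₁ ^ 3 * H + c₂ ^ 3 * H ^ 2 - 3 * c₀ * c₁ * c₂ * H
    let χ : K[X] := X ^ 3 + C (-(3 * c₀)) * X ^ 2 + C (3 * c₀ ^ 2 - 3 * c₁ * c₂ * H) * X + C (-N)
    have hχnd : χ.natDegree = 3 := cub_natDegree _ _ _
    have hχ : χ.Monic := cub_monic _ _ _
    have hroot : aeval y χ = 0 := by
      simp only [χ, N, map_sub, map_add, map_mul, map_pow, aeval_X, aeval_C, hH, map_ofNat, map_neg]
      rw [hydef]
      ring
    have hmin : minpoly K y = χ := by
      refine (eq_of_monic_of_dvd_of_natDegree_le (minpoly.monic hyK) hχ (minpoly.dvd K y hroot)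
        ?_).symm
      rw [hdeg, hχnd]
    have hmap := minpoly.isIntegrallyClosed_eq_field_fractions' (R := k[X]) K hy
    rw [hmin] at hmap
    have hcoef : ∀ n, ∃ p : k[X], χ.coeff n = algebraMap k[X] K p := by
      intro n
      rw [hmap, coeff_map]
      exact ⟨_, rfl⟩
    have e0 : χ.coeff 0 = -N := cub_coeff0 _ _ _
    have e1 : χ.coeff 1 = 3 * c₀ ^ 2 - 3 * c₁ * c₂ * H := cub_coeff1 _ _ _
    have e2 : χ.coeff 2 = - (3 * c₀) := cub_coeff2 _ _ _
    obtain ⟨p0, hp0⟩ := hcoef 0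
    obtain ⟨p1, hp1⟩ := hcoef 1
    obtain ⟨p2, hp2⟩ := hcoef 2
    rw [e0] at hp0
    rw [e1] at hp1
    rw [e2] at hp2
    have h3 : (3 : k) ≠ 0 := by norm_num
    have third : algebraMap k[X] K (C (1 / 3)) * 3 = 1 := by
      have : (C (1 / 3) * 3 : k[X]) = 1 := by
        rw [show (3 : k[X]) = C 3 by rfl, ← C_mul, one_div, inv_mul_cancel₀ h3, C_1]
      rw [← map_ofNat (algebraMap k[X] K), ← map_mul, this, map_one]
    have hc0 : c₀ = algebraMap k[X] K (-C (1 / 3) * p2) := by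
      rw [map_mul, map_neg, ← hp2]
      linear_combination (-c₀) * third
    refine ⟨⟨_, hc0⟩, ?_⟩
    -- the product
    have hprod : c₁ * c₂ * H = algebraMap k[X] K ((-C (1 / 3) * p2) ^ 2 - C (1 / 3) * p1) := by
      rw [map_sub, map_pow, ← hc0, map_mul, ← hp1]
      linear_combination (c₀ ^ 2 - c₁ * c₂ * H) * third
    have hsum : c₁ ^ 3 * H + c₂ ^ 3 * H ^ 2 = algebraMap k[X] K (- p0 - (-C (1 / 3) * p2) ^ 3 +
        3 * (-C (1 / 3) * p2) * ((-C (1 / 3) * p2) ^ 2 - C (1 / 3) * p1)) := by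
      rw [map_add, map_sub, map_pow, map_neg, ← hc0, map_mul, ← hprod, mul_assoc, map_mul, ← hc0,
        ← hp0, map_ofNat]
      simp only [N]
      ring
    have key : ∀ α β : K, (∃ s : k[X], α + β = algebraMap k[X] K s) →
        (∃ s : k[X], α * β = algebraMap k[X] K s) → IsIntegral k[X] α := by
      rintro α β ⟨s, hs1⟩ ⟨r, hr1⟩
      refine ⟨X ^ 2 - C s * X + C r, by monicity!, ?_⟩
      simp only [eval₂_add, eval₂_sub, eval₂_mul, eval₂_pow, eval₂_X, eval₂_C]
      rw [← hs1, ← hr1]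
      ring
    have hαβ : (c₁ ^ 3 * H) * (c₂ ^ 3 * H ^ 2) =
        algebraMap k[X] K (((-C (1 / 3) * p2) ^ 2 - C (1 / 3) * p1) ^ 3) := by
      rw [map_pow, ← hprod]; ring
    have i1 := key _ _ ⟨_, hsum⟩ ⟨_, hαβ⟩
    have i2 := key (c₂ ^ 3 * H ^ 2) (c₁ ^ 3 * H) ⟨_, by rw [add_comm]; exact hsum⟩
      ⟨_, by rw [mul_comm]; exact hαβ⟩
    obtain ⟨g1, hg1⟩ := poly_of_integral i1
    obtain ⟨g2, hg2⟩ := poly_of_integral i2
    exact ⟨poly_of_cube hs (m := 1) (by norm_num) (by rw [pow_one]; exact hg1),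
      poly_of_cube hs (m := 2) (by norm_num) hg2⟩

end cubic

end Pool.Agent.H585R2.FF
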