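import Mathlib
import Pool.Agent.H585R2.FF1

set_option autoImplicit false

/-! Pulling back the regular differentials of `b ^ 3 = f(a)` (`f` of degree six): affine chart. -/

namespace Pool.Agent.H585R2.FF

open Polynomial IsDedekindDomain

section der

variable {k F : Type*} [Field k] [Field F] [Algebra k F] (D : Derivation k F F)

theorem der_aeval (a : F) (f : k[X]) : D (aeval a f) = aeval a (derivative f) * D a := by
  induction f using Polynomial.induction_on' with
  | add p q hp hq => simp only [map_add, hp, hq]; ring
  | monomial n c =>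
    rw [← C_mul_X_pow_eq_monomial]
    simp only [map_mul, aeval_C, map_pow, aeval_X, Derivation.leibniz, Derivation.leibniz_pow,
      Derivation.map_algebraMap, smul_zero, add_zero, smul_eq_mul, derivative_mul, derivative_C,
      zero_mul, zero_add, derivative_X_pow, nsmul_eq_mul, map_natCast]
    ring

end der

section chart

variable {k K F : Type*} [Field k] [CharZero k] [Field K] [Algebra k[X] K] [IsFractionRing k[X] K]
  [Field F] [Algebra K F] [Algebra k[X] F] [IsScalarTower k[X] K F]
  [Algebra k F] [IsScalarTower k k[X] F] {h : k[X]} {t : F}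
  (D : Derivation k F F)

theorem am_eq (p : k[X]) : algebraMap k[X] F p = aeval (algebraMap k[X] F X) p := by
  rw [aeval_algebraMap_apply, aeval_X_left_apply]

theorem isIntegral_poly (p : k[X]) : IsIntegral k[X] (algebraMap k[X] F p) := isIntegral_algebraMap

theorem isIntegral_t' (ht : t ^ 3 = algebraMap k[X] F h) : IsIntegral k[X] t := by
  refine ⟨X ^ 3 - C h, monic_X_pow_sub_C _ (by norm_num), ?_⟩
  simp [eval₂_sub, eval₂_pow, eval₂_X, eval₂_C, ht]

theorem stable (hs : Squarefree h) (hpos : 0 < h.natDegree)
    (ht : t ^ 3 = algebraMap k[X] F h) (hgen : IntermediateField.adjoin K {t} = ⊤)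
    (hD : D (algebraMap k[X] F X) = 1) {y : F} (hy : IsIntegral k[X] y) :
    IsIntegral k[X] (t ^ 2 * D y) := by
  obtain ⟨p, q, r, rfl⟩ := integral_coord (K := K) hs hpos ht hgen hy
  have hP : ∀ p : k[X], D (algebraMap k[X] F p) = algebraMap k[X] F (derivative p) := by
    intro p
    rw [am_eq, der_aeval, hD, mul_one, ← am_eq]
  have hcz : CharZero F := charZero_of_injective_algebraMap (algebraMap k F).injective
  have h1 : 3 * (t ^ 2 * D t) = algebraMap k[X] F (derivative h) := by
    have := congrArg D ht
    rw [hP, Derivation.leibniz_pow] at this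
    simp only [Nat.add_one_sub_one, smul_eq_mul, nsmul_eq_mul] at this
    rw [← this]
    push_cast
    ring
  have h2 : t ^ 2 * D t = algebraMap k[X] F (C (1 / 3) * derivative h) := by
    have h3 : (3 : k) ≠ 0 := by norm_num
    rw [map_mul, ← h1, ← mul_assoc, ← map_ofNat (algebraMap k[X] F), ← map_mul,
      show (3 : k[X]) = C 3 by rfl, ← C_mul, one_div, inv_mul_cancel₀ h3, C_1, map_one, one_mul]
  have hti := isIntegral_t' ht
  have h4 : t ^ 2 * D (algebraMap k[X] F p + algebraMap k[X] F q * t + algebraMap k[X] F r * t ^ 2)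
      = t ^ 2 * algebraMap k[X] F (derivative p) + algebraMap k[X] F (derivative q) *
        algebraMap k[X] F h + algebraMap k[X] F q * algebraMap k[X] F (C (1 / 3) * derivative h) +
        algebraMap k[X] F (derivative r) * algebraMap k[X] F h * t +
        algebraMap k[X] F (2 * r * (C (1 / 3) * derivative h)) * t := by
    rw [map_mul (algebraMap k[X] F) (2 * r), ← h2, ← ht]
    simp only [map_add, Derivation.leibniz, Derivation.leibniz_pow, hP, smul_eq_mul, nsmul_eq_mul,
      map_mul, map_ofNat]
    push_cast
    ring
  rw [h4]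
  have hi := fun p : k[X] => isIntegral_poly (F := F) p
  exact ((((hti.pow 2).mul (hi _)).add ((hi _).mul (hi _))).add ((hi _).mul (hi _))).add
    (((hi _).mul (hi _)).mul hti) |>.add ((hi _).mul hti)

/-- the ring of integral elements -/
noncomputable abbrev Cl (k F : Type*) [Field k] [Field F] [Algebra k[X] F] :=
  integralClosure k[X] F

end chart

theorem dedekind (k K F : Type*) [Field k] [CharZero k] [Field K] [Algebra k[X] K]
    [IsFractionRing k[X] K] [Field F] [Algebra K F] [Algebra k[X] F] [IsScalarTower k[X] K F]
    [FiniteDimensional K F] : IsDedekindDomain (Cl k F) := by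
  have : CharZero K := charZero_of_injective_algebraMap (IsFractionRing.injective k[X] K)
  exact integralClosure.isDedekindDomain k[X] K F

theorem fracRing (k K F : Type*) [Field k] [Field K] [Algebra k[X] K]
    [IsFractionRing k[X] K] [Field F] [Algebra K F] [Algebra k[X] F] [IsScalarTower k[X] K F]
    [FiniteDimensional K F] : IsFractionRing (Cl k F) F :=
  integralClosure.isFractionRing_of_finite_extension K F


section val

variable {k F : Type*} [Field k] [CharZero k] [Field F] [Algebra k[X] F]
  [Algebra k F] [IsScalarTower k k[X] F] [IsDedekindDomain (Cl k F)] [IsFractionRing (Cl k F) F]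
  (D : Derivation k F F) (v : HeightOneSpectrum (Cl k F))

theorem val_int {y : F} (hy : IsIntegral k[X] y) : v.valuation F y ≤ 1 :=
  v.valuation_le_one (K := F) (⟨y, hy⟩ : Cl k F)

theorem val_const (c : k) : v.valuation F (algebraMap k F c) ≤ 1 := by
  rw [IsScalarTower.algebraMap_apply k k[X] F]
  exact val_int v isIntegral_algebraMap

theorem val_const_eq {c : k} (hc : c ≠ 0) : v.valuation F (algebraMap k F c) = 1 := by
  apply le_antisymm (val_const v c)
  have h1 := val_const (F := F) v c⁻¹
  rw [map_inv₀, map_inv₀] at h1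
  have h2 : v.valuation F (algebraMap k F c) ≠ 0 := by
    rw [Valuation.ne_zero_iff]
    exact (map_ne_zero (algebraMap k F)).2 hc
  exact (inv_le_one₀ (zero_lt_iff.2 h2)).1 h1

theorem val_aeval {a : F} (ha : v.valuation F a ≤ 1) (f : k[X]) :
    v.valuation F (aeval a f) ≤ 1 := by
  induction f using Polynomial.induction_on' with
  | add p q hp hq =>
    rw [map_add]
    exact (Valuation.map_add _ _ _).trans (max_le hp hq)
  | monomial n c =>
    rw [aeval_monomial, map_mul, map_pow]
    exact mul_le_one' (val_const v c) (pow_le_one' ha n)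

theorem val_stable {t : F} (hst : ∀ y : F, IsIntegral k[X] y → IsIntegral k[X] (t ^ 2 * D y))
    {y : F} (hy : v.valuation F y ≤ 1) : v.valuation F (t ^ 2 * D y) ≤ 1 := by
  obtain ⟨n, d, hnd⟩ := v.exists_primeCompl_mul_eq_of_integer y hy
  have hd : v.valuation F (algebraMap (Cl k F) F d) = 1 := by
    rw [v.valuation_of_algebraMap]
    exact (v.intValuation_eq_one_iff_mem_primeCompl d).2 d.2
  have h1 : (t ^ 2 * D y) * algebraMap (Cl k F) F d =
      t ^ 2 * D (algebraMap (Cl k F) F n) - y * (t ^ 2 * D (algebraMap (Cl k F) F d)) := by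
    rw [← hnd, Derivation.leibniz, smul_eq_mul, smul_eq_mul]
    ring
  have h2 : v.valuation F (t ^ 2 * D y) = v.valuation F ((t ^ 2 * D y) * algebraMap (Cl k F) F d) := by
    rw [map_mul _ (t ^ 2 * D y), hd, mul_one]
  rw [h2, h1]
  refine (Valuation.map_sub _ _ _).trans (max_le ?_ ?_)
  · exact val_int v (hst _ n.2)
  · rw [map_mul]
    exact mul_le_one' hy (val_int v (hst _ (d : Cl k F).2))

theorem chart_val {t : F} (hst : ∀ y : F, IsIntegral k[X] y → IsIntegral k[X] (t ^ 2 * D y))
    {f : k[X]} (hf : f.Separable) (hf6 : f.natDegree = 6) {a b : F} (hb : b ^ 3 = aeval a f)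
    (hb0 : b ≠ 0) {i : ℕ} (hi : i ≤ 2) :
    v.valuation F (t ^ 2 * D a * a ^ i / b ^ 2) ≤ 1 := by
  have hbv : v.valuation F b ≠ 0 := (Valuation.ne_zero_iff _).2 hb0
  have h3 : (3 : F) ≠ 0 := by
    haveI : CharZero F := charZero_of_injective_algebraMap (algebraMap k F).injective
    norm_num
  rcases le_or_gt (v.valuation F a) 1 with ha | ha
  · have hfa := val_aeval v ha f
    have hb1 : v.valuation F b ≤ 1 := by
      rw [← hb, map_pow] at hfa
      by_contra hcon
      exact absurd hfa (not_le.2 (one_lt_pow₀ (not_le.1 hcon) (by norm_num)))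
    have hai : v.valuation F (a ^ i) ≤ 1 := by
      rw [map_pow]; exact pow_le_one' ha i
    rcases hb1.lt_or_eq with hb2 | hb2
    · -- `b` in the maximal ideal
      have hfa1 : v.valuation F (aeval a f) < 1 := by
        rw [← hb, map_pow]
        exact pow_lt_one₀ zero_le hb2 (by norm_num)
      have hfa' : v.valuation F (aeval a (derivative f)) = 1 := by
        apply le_antisymm (val_aeval v ha _)
        by_contra hcon
        obtain ⟨u, w, huw⟩ := hf
        have e1 := congrArg (aeval a) huw
        rw [map_add, map_mul, map_mul, map_one] at e1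
        have e2 : v.valuation F (aeval a u * aeval a f + aeval a w * aeval a (derivative f)) < 1 := by
          refine (Valuation.map_add _ _ _).trans_lt (max_lt ?_ ?_)
          · rw [map_mul]
            exact mul_lt_one_of_nonneg_of_lt_one_right (val_aeval v ha u) zero_le hfa1
          · rw [map_mul]
            exact mul_lt_one_of_nonneg_of_lt_one_right (val_aeval v ha w) zero_le (not_le.1 hcon)
        rw [e1, map_one] at e2
        exact lt_irrefl _ e2
      have hfa0 : aeval a (derivative f) ≠ 0 := by
        intro h0
        rw [h0, map_zero] at hfa'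
        exact zero_ne_one hfa'
      have hder : 3 * b ^ 2 * D b = aeval a (derivative f) * D a := by
        rw [← der_aeval, ← hb, Derivation.leibniz_pow]
        simp only [smul_eq_mul, nsmul_eq_mul]
        push_cast
        ring
      have hG : t ^ 2 * D a * a ^ i / b ^ 2 = algebraMap k F 3 * (t ^ 2 * D b) * a ^ i /
          aeval a (derivative f) := by
        rw [div_eq_div_iff (pow_ne_zero 2 hb0) hfa0, map_ofNat]
        linear_combination (-(t ^ 2 * a ^ i)) * hder
      rw [hG, map_div₀, hfa', div_one, map_mul, map_mul]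
      exact mul_le_one' (mul_le_one' (val_const v 3) (val_stable D v hst hb1)) hai
    · rw [map_div₀, map_pow _ b, hb2, one_pow, div_one, map_mul]
      exact mul_le_one' (val_stable D v hst ha) hai
  · have ha0 : a ≠ 0 := by
      rintro rfl
      rw [map_zero] at ha
      exact absurd ha (not_lt.2 zero_le)
    have hw : v.valuation F a⁻¹ < 1 := by
      rw [map_inv₀]; exact inv_lt_one_of_one_lt₀ ha
    -- the reversed polynomial
    have hrev : aeval a⁻¹ f.reverse * a ^ 6 = aeval a f := by
      letI := invertibleOfNonzero ha0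
      have := eval₂_reverse_mul_pow (algebraMap k F) a f
      rw [hf6, invOf_eq_inv] at this
      exact this
    have hval : v.valuation F (aeval a⁻¹ f.reverse) = 1 := by
      have e1 := congrArg (aeval a⁻¹) (divX_mul_X_add f.reverse)
      rw [map_add, map_mul, aeval_X, aeval_C, coeff_zero_reverse] at e1
      have hlc : f.leadingCoeff ≠ 0 := by
        rw [Ne, leadingCoeff_eq_zero]
        rintro rfl
        simp at hf6
      rw [← e1, Valuation.map_add_eq_of_lt_right _ ?_, val_const_eq v hlc]
      rw [val_const_eq v hlc, map_mul]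
      exact mul_lt_one_of_nonneg_of_lt_one_right (val_aeval v hw.le _) zero_le hw
    have hz3 : (b / a ^ 2) ^ 3 = aeval a⁻¹ f.reverse := by
      rw [div_pow, hb, ← hrev]
      field_simp
    have hz : v.valuation F (b / a ^ 2) = 1 := by
      rw [← hz3, map_pow] at hval
      exact (pow_eq_one_iff_of_nonneg zero_le (by norm_num)).1 hval
    have hDw : D a = - (a ^ 2 * D a⁻¹) := by
      rw [Derivation.leibniz_inv]
      simp only [smul_eq_mul]
      field_simp
    have hG : t ^ 2 * D a * a ^ i / b ^ 2 = - (a⁻¹ ^ (2 - i) * (t ^ 2 * D a⁻¹)) / (b / a ^ 2) ^ 2 := by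
      rw [hDw]
      have h5 : a ^ i * a⁻¹ ^ 2 = a⁻¹ ^ (2 - i) := by
        interval_cases i
        · simp
        · rw [pow_one, pow_two, ← mul_assoc, mul_inv_cancel₀ ha0, one_mul]; simp
        · rw [← mul_pow, mul_inv_cancel₀ ha0]; simp
      rw [← h5]
      field_simp
    rw [hG, map_div₀, map_pow _ (b / a ^ 2), hz, one_pow, div_one, Valuation.map_neg, map_mul,
      map_pow]
    exact mul_le_one' (pow_le_one' hw.le _) (val_stable D v hst hw.le)

end val

end Pool.Agent.H585R2.FF
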