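import Mathlib
import Pool.Agent.H585R2.FF2

set_option autoImplicit false
set_option linter.style.haveILetI false
set_option linter.unusedSectionVars false

/-! Versions of the results on cubic function fields without instances depending on the
generator. -/

namespace Pool.Agent.H585R2.FF

open Polynomial IsDedekindDomain

/-- The data of a cubic function field `F = k(x, t)`, `t ^ 3 = h(x)`. -/
structure IsCubic {k F : Type*} [Field k] [Field F] [Algebra k F] (x t : F) (h : k[X]) : Prop where
  tr : Transcendental k x
  sep : h.Separable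
  pos : 0 < h.natDegree
  eq : t ^ 3 = aeval x h
  gen : IntermediateField.adjoin k {x, t} = ⊤

section

variable {k F : Type*} [Field k] [Field F] [Algebra k F] {x t : F} {h : k[X]}

/-- `F` as an algebra over `k[X]` through `x` -/
@[reducible]
noncomputable def algX (x : F) : Algebra k[X] F := (aeval (R := k) x).toRingHom.toAlgebra

theorem towerX (x : F) : letI := algX (k := k) x; IsScalarTower k k[X] F := by
  letI := algX (k := k) x
  refine IsScalarTower.of_algebraMap_eq fun c => ?_
  change algebraMap k F c = aeval x (C c)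
  rw [aeval_C]

theorem faithX (hx : Transcendental k x) : letI := algX (k := k) x; FaithfulSMul k[X] F := by
  letI := algX (k := k) x
  rw [faithfulSMul_iff_algebraMap_injective]
  exact transcendental_iff_injective.1 hx

theorem gen_general {K : Type*} [Field K] [Algebra k K] [Algebra K F] [IsScalarTower k K F]
    (hx : x ∈ (algebraMap K F).range) (hgen : IntermediateField.adjoin k {x, t} = ⊤) :
    IntermediateField.adjoin K {t} = ⊤ := by
  have h1 : IntermediateField.adjoin k {x, t} ≤
      (IntermediateField.adjoin K {t}).restrictScalars k := by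
    rw [IntermediateField.adjoin_le_iff]
    intro y hy
    rcases hy with hy | hy
    · obtain ⟨c, hc⟩ := hx
      rw [hy, ← hc]
      exact IntermediateField.algebraMap_mem _ c
    · rw [Set.mem_singleton_iff] at hy
      rw [hy]
      exact IntermediateField.mem_adjoin_simple_self K t
  rw [hgen] at h1
  rw [eq_top_iff]
  intro y _
  exact h1 trivial

theorem genX (H : IsCubic x t h) :
    letI := algX (k := k) x
    haveI := faithX H.tr
    letI := FractionRing.liftAlgebra k[X] F
    IntermediateField.adjoin (FractionRing k[X]) {t} = ⊤ := by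
  letI := algX (k := k) x
  haveI := faithX H.tr
  haveI := towerX (k := k) x
  letI := FractionRing.liftAlgebra k[X] F
  haveI : IsScalarTower k (FractionRing k[X]) F := inferInstance
  refine gen_general (k := k) (x := x) ⟨algebraMap k[X] (FractionRing k[X]) X, ?_⟩ H.gen
  rw [← IsScalarTower.algebraMap_apply]
  exact aeval_X x

theorem ne_aeval (hx : Transcendental k x) {s : k[X]} (hs : s ≠ 0) : aeval x s ≠ 0 := fun h0 =>
  hs (transcendental_iff.1 hx s h0)

theorem coord_poly (H : IsCubic x t h) {p q r p' q' r' : k[X]}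
    (he : aeval x p + aeval x q * t + aeval x r * t ^ 2 =
      aeval x p' + aeval x q' * t + aeval x r' * t ^ 2) : p = p' ∧ q = q' ∧ r = r' := by
  letI := algX (k := k) x
  haveI := faithX H.tr
  letI := FractionRing.liftAlgebra k[X] F
  have h1 := coord_eq (k := k) (K := FractionRing k[X]) (F := F) (h := h) (t := t)
    (c₀ := algebraMap _ _ p) (c₁ := algebraMap _ _ q) (c₂ := algebraMap _ _ r)
    (d₀ := algebraMap _ _ p') (d₁ := algebraMap _ _ q') (d₂ := algebraMap _ _ r')
    H.sep.squarefree H.pos H.eq (by
      simp only [← IsScalarTower.algebraMap_apply]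
      exact he)
  have h2 := IsFractionRing.injective k[X] (FractionRing k[X])
  exact ⟨h2 h1.1, h2 h1.2.1, h2 h1.2.2⟩

theorem exists_coords (H : IsCubic x t h) (y : F) : ∃ p q r s : k[X], s ≠ 0 ∧
    y * aeval x s = aeval x p + aeval x q * t + aeval x r * t ^ 2 := by
  letI := algX (k := k) x
  haveI := faithX H.tr
  letI := FractionRing.liftAlgebra k[X] F
  obtain ⟨c₀, c₁, c₂, hy⟩ := exists_coord (k := k) (K := FractionRing k[X]) (F := F) (h := h)
    (t := t) H.eq (genX H) y
  obtain ⟨p0, s0, -, hs0, rfl⟩ := exists_coprime (k := k) c₀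
  obtain ⟨p1, s1, -, hs1, rfl⟩ := exists_coprime (k := k) c₁
  obtain ⟨p2, s2, -, hs2, rfl⟩ := exists_coprime (k := k) c₂
  refine ⟨p0 * s1 * s2, p1 * s0 * s2, p2 * s0 * s1, s0 * s1 * s2,
    mul_ne_zero (mul_ne_zero hs0 hs1) hs2, ?_⟩
  rw [hy]
  simp only [map_div₀, ← IsScalarTower.algebraMap_apply]
  have e : ∀ p : k[X], algebraMap k[X] F p = aeval x p := fun p => rfl
  have n0 : aeval x s0 ≠ 0 := ne_aeval H.tr hs0
  have n1 : aeval x s1 ≠ 0 := ne_aeval H.tr hs1
  have n2 : aeval x s2 ≠ 0 := ne_aeval H.tr hs2
  simp only [e, map_mul]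
  field_simp

theorem chart [CharZero k] (H : IsCubic x t h) (D : Derivation k F F) (hD : D x = 1) {f : k[X]}
    (hf : f.Separable) (hf6 : f.natDegree = 6) {a b : F} (hb : b ^ 3 = aeval a f)
    (hb0 : b ≠ 0) {i : ℕ} (hi : i ≤ 2) :
    ∃ p q r : k[X], t ^ 2 * D a * a ^ i / b ^ 2 =
      aeval x p + aeval x q * t + aeval x r * t ^ 2 := by
  letI := algX (k := k) x
  haveI := faithX H.tr
  haveI := towerX (k := k) x
  letI := FractionRing.liftAlgebra k[X] F
  have hX : (algebraMap k[X] F X) = x := aeval_X x
  have hgen := genX H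
  have hfin := finrank_eq (K := FractionRing k[X]) (t := t) H.sep.squarefree H.pos H.eq hgen
  haveI : FiniteDimensional (FractionRing k[X]) F :=
    Module.finite_of_finrank_pos (by rw [hfin]; norm_num)
  haveI := dedekind k (FractionRing k[X]) F
  haveI := fracRing k (FractionRing k[X]) F
  have hst : ∀ y : F, IsIntegral k[X] y → IsIntegral k[X] (t ^ 2 * D y) := fun y hy =>
    stable (K := FractionRing k[X]) D H.sep.squarefree H.pos H.eq hgen (by rw [hX]; exact hD) hy
  have h1 := HeightOneSpectrum.mem_integers_of_valuation_le_one (R := Cl k F) F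
    (t ^ 2 * D a * a ^ i / b ^ 2) (fun v => chart_val D v hst hf hf6 hb hb0 hi)
  obtain ⟨u, hu⟩ := h1
  have h2 : IsIntegral k[X] (t ^ 2 * D a * a ^ i / b ^ 2) := by
    rw [← hu]; exact u.2
  exact integral_coord (K := FractionRing k[X]) H.sep.squarefree H.pos H.eq hgen h2

end

end Pool.Agent.H585R2.FF
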