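import Mathlib
import Pool.Agent.H585R2.FF3
import Pool.Agent.H585R2.DiffC

set_option autoImplicit false
set_option linter.style.haveILetI false
set_option linter.unusedSectionVars false

/-! The points of the curve `t ^ 3 = 2 (x ^ 6 + x ^ 5 + 1)` over its own function field. -/

namespace Pool.Agent.H585R2.FF

open Polynomial

section polys

variable (k : Type*) [Field k]

/-- `2 (X ^ 6 + X ^ 5 + 1)` -/
noncomputable def fP : k[X] := 2 * X ^ 6 + 2 * X ^ 5 + 2

/-- the reversed polynomial `2 (X ^ 6 + X + 1)` -/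
noncomputable def fR : k[X] := 2 * X ^ 6 + 2 * X + 2

variable [CharZero k]

theorem fP_natDegree : (fP k).natDegree = 6 := by
  unfold fP; compute_degree!

theorem fR_natDegree : (fR k).natDegree = 6 := by
  unfold fR; compute_degree!

theorem fP_separable : (fP k).Separable := by
  have h0 : (43531 * 2 : k) ≠ 0 := by norm_num
  refine ⟨C (43531 * 2 : k)⁻¹ * (43531 + 6480 * X ^ 4),
    C (43531 * 2 : k)⁻¹ * (-1296 - 7151 * X - 125 * X ^ 2 + 150 * X ^ 3 - 180 * X ^ 4
      - 1080 * X ^ 5), ?_⟩
  have hd : derivative (fP k) = 12 * X ^ 5 + 10 * X ^ 4 := by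
    unfold fP
    simp only [derivative_add, derivative_mul, derivative_X_pow, derivative_ofNat]
    simp only [map_natCast]
    push_cast
    ring
  have h1 : C (43531 * 2 : k)⁻¹ * (43531 * 2 : k[X]) = 1 := by
    rw [show (43531 * 2 : k[X]) = C (43531 * 2) by rw [C_mul]; rfl, ← C_mul, inv_mul_cancel₀ h0, C_1]
  rw [hd, fP, ← h1]
  ring

theorem fR_separable : (fR k).Separable := by
  have h0 : (43531 * 2 : k) ≠ 0 := by norm_num
  refine ⟨C (43531 * 2 : k)⁻¹ * (46656 - 38880 * X + 32400 * X ^ 2 - 27000 * X ^ 3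
      + 22500 * X ^ 4),
    C (43531 * 2 : k)⁻¹ * (-3125 - 7776 * X + 6480 * X ^ 2 - 5400 * X ^ 3 + 4500 * X ^ 4
      - 3750 * X ^ 5), ?_⟩
  have hd : derivative (fR k) = 12 * X ^ 5 + 2 := by
    unfold fR
    simp only [derivative_add, derivative_mul, derivative_X_pow, derivative_ofNat, derivative_X]
    simp only [map_natCast]
    push_cast
    ring
  have h1 : C (43531 * 2 : k)⁻¹ * (43531 * 2 : k[X]) = 1 := by
    rw [show (43531 * 2 : k[X]) = C (43531 * 2) by rw [C_mul]; rfl, ← C_mul, inv_mul_cancel₀ h0, C_1]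
  rw [hd, fR, ← h1]
  ring

end polys

section ratio

variable {k : Type*} [Field k] [CharZero k]

/-- a quotient of polynomials with derivative zero is constant -/
theorem ratio_const {p s : k[X]} (hs : s ≠ 0) (h : derivative p * s = p * derivative s) :
    ∃ c : k, p = C c * s := by
  obtain ⟨c, hc⟩ := DiffC.const_of_D_eq_zero (DiffC.ddt : Derivation k (RatFunc k) (RatFunc k))
    DiffC.ddt_X (algebraMap k[X] (RatFunc k) p / algebraMap k[X] (RatFunc k) s) (by
      change DiffC.dd _ = 0
      rw [DiffC.dd_div p hs, DiffC.dq, h, sub_self, map_zero, zero_div])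
  refine ⟨c, ?_⟩
  rw [div_eq_iff (DiffC.am_ne hs), DiffC.algebraMap_C, ← map_mul] at hc
  exact RatFunc.algebraMap_injective k hc

/-- `q ^ 3 h ^ m = κ s ^ 3` is impossible for squarefree nonconstant `h` -/
theorem no_const_cube {h q s : k[X]} (hs : Squarefree h) (hpos : 0 < h.natDegree) {m : ℕ}
    (hm : m ≤ 2) (hm0 : 0 < m) {κ : k} (hs0 : s ≠ 0) (he : q ^ 3 * h ^ m = C κ * s ^ 3) : q = 0 := by
  by_contra hq
  have h1 := poly_of_cube (K := FractionRing k[X]) hs hm (c := algebraMap _ _ q / algebraMap _ _ s)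
    (g := C κ) (by
      have hs' : algebraMap k[X] (FractionRing k[X]) s ≠ 0 := by
        rw [Ne, IsFractionRing.to_map_eq_zero_iff]; exact hs0
      rw [div_pow, div_mul_eq_mul_div, div_eq_iff (pow_ne_zero 3 hs')]
      simp only [← map_pow, ← map_mul]
      rw [he])
  obtain ⟨w, hw⟩ := h1
  have hs' : algebraMap k[X] (FractionRing k[X]) s ≠ 0 := by
    rw [Ne, IsFractionRing.to_map_eq_zero_iff]; exact hs0
  rw [div_eq_iff hs', ← map_mul] at hw
  have hw' := IsFractionRing.injective k[X] (FractionRing k[X]) hw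
  rw [hw'] at he hq
  have hw0 : w ≠ 0 := fun h0 => hq (by rw [h0, zero_mul])
  have h2 : w ^ 3 * h ^ m = C κ := by
    apply mul_right_cancel₀ (pow_ne_zero 3 hs0)
    rw [← he]; ring
  have h3 := congrArg natDegree h2
  rw [natDegree_C, natDegree_mul (pow_ne_zero 3 hw0) (pow_ne_zero m hs.ne_zero), natDegree_pow,
    natDegree_pow] at h3
  have h4 : 0 < m * h.natDegree := Nat.mul_pos hm0 hpos
  omega

end ratio

section consts

variable {k F : Type*} [Field k] [CharZero k] [Field F] [Algebra k F] {x t : F} {h : k[X]}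

/-- the constants of `d/dx` in a cubic function field -/
theorem constants (H : IsCubic x t h) (D : Derivation k F F) (hD : D x = 1) {y : F}
    (hy : D y = 0) : ∃ c : k, y = algebraMap k F c := by
  obtain ⟨p, q, r, s, hs, he⟩ := exists_coords H y
  have hcz : CharZero F := charZero_of_injective_algebraMap (algebraMap k F).injective
  have hP : ∀ p : k[X], D (aeval x p) = aeval x (derivative p) := by
    intro p; rw [der_aeval, hD, mul_one]
  have h0 : h ≠ 0 := H.sep.squarefree.ne_zero
  have ht0 : t ≠ 0 := by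
    intro h1
    have := H.eq
    rw [h1, zero_pow (by norm_num)] at this
    exact ne_aeval H.tr h0 this.symm
  have h1 : 3 * (t ^ 2 * D t) = aeval x (derivative h) := by
    have := congrArg D H.eq
    rw [hP, Derivation.leibniz_pow] at this
    simp only [Nat.add_one_sub_one, smul_eq_mul, nsmul_eq_mul] at this
    rw [← this]
    push_cast
    ring
  have h1' : 3 * aeval x h * D t = aeval x (derivative h) * t := by
    rw [← h1, ← H.eq]; ring
  have h2 := congrArg D he
  simp only [map_add, Derivation.leibniz, Derivation.leibniz_pow, hP, smul_eq_mul, nsmul_eq_mul, hy,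
    mul_zero, add_zero] at h2
  push_cast at h2
  simp only [Nat.add_one_sub_one, pow_one] at h2
  have h3 : aeval x (3 * h * derivative s * p) + aeval x (3 * h * derivative s * q) * t +
      aeval x (3 * h * derivative s * r) * t ^ 2 =
      aeval x (3 * h * s * derivative p) + aeval x (3 * h * s * derivative q +
      s * q * derivative h) * t +
      aeval x (3 * h * s * derivative r + 2 * s * r * derivative h) * t ^ 2 := by
    simp only [map_mul, map_add, map_ofNat]
    have e1 : aeval x s * (y * aeval x (derivative s)) * (3 * aeval x h) =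
        (aeval x p + aeval x q * t + aeval x r * t ^ 2) * aeval x (derivative s) *
          (3 * aeval x h) := by
      rw [← he]; ring
    linear_combination (-1 : F) * e1 + (3 * aeval x h * aeval x s) * h2 +
      (aeval x s * aeval x q + 2 * aeval x s * aeval x r * t) * h1'
  obtain ⟨k0, k1, k2⟩ := coord_poly H h3
  have h3k : (3 * h : k[X]) ≠ 0 := mul_ne_zero (by norm_num) h0
  have k0' : derivative p * s = p * derivative s := by
    apply mul_left_cancel₀ h3k
    linear_combination (-1 : k[X]) * k0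
  obtain ⟨c, hc⟩ := ratio_const hs k0'
  have hsq := H.sep.squarefree
  have hq : q = 0 := by
    obtain ⟨κ, hκ⟩ := ratio_const (p := q ^ 3 * h ^ 1) (s := s ^ 3) (pow_ne_zero 3 hs) (by
      simp only [derivative_mul, derivative_pow, pow_one]
      simp only [map_natCast]
      push_cast
      linear_combination (-(q ^ 2 * s ^ 2 )) * k1)
    exact no_const_cube hsq H.pos (by norm_num) (by norm_num) hs hκ
  have hr : r = 0 := by
    obtain ⟨κ, hκ⟩ := ratio_const (p := r ^ 3 * h ^ 2) (s := s ^ 3) (pow_ne_zero 3 hs) (by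
      simp only [derivative_mul, derivative_pow, pow_one]
      simp only [map_natCast]
      push_cast
      linear_combination (-(r ^ 2 * s ^ 2 * h)) * k2)
    exact no_const_cube hsq H.pos (by norm_num) (by norm_num) hs hκ
  refine ⟨c, ?_⟩
  rw [hq, hr, hc] at he
  apply mul_right_cancel₀ (ne_aeval H.tr hs)
  rw [he]
  simp

end consts

section infinity

variable {k F : Type*} [Field k] [CharZero k] [Field F] [Algebra k F] {x t : F}

theorem cubic_inv (H : IsCubic x t (fP k)) : IsCubic x⁻¹ (t / x ^ 2) (fR k) := by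
  have hx0 : x ≠ 0 := by
    rintro rfl
    exact H.tr isAlgebraic_zero
  refine ⟨?_, fR_separable k, by rw [fR_natDegree]; norm_num, ?_, ?_⟩
  · intro h1
    apply H.tr
    have := h1.inv
    rwa [inv_inv] at this
  · rw [div_pow, H.eq]
    simp only [fP, fR, map_add, map_mul, map_pow, aeval_X, map_ofNat]
    field_simp
    ring
  · rw [eq_top_iff, ← H.gen, IntermediateField.adjoin_le_iff]
    have m1 : x⁻¹ ∈ IntermediateField.adjoin k {x⁻¹, t / x ^ 2} :=
      IntermediateField.subset_adjoin k _ (by simp)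
    have m2 : t / x ^ 2 ∈ IntermediateField.adjoin k {x⁻¹, t / x ^ 2} :=
      IntermediateField.subset_adjoin k _ (by simp)
    have m3 : x ∈ IntermediateField.adjoin k {x⁻¹, t / x ^ 2} := by
      have := inv_mem m1
      rwa [inv_inv] at this
    have m4 : t ∈ IntermediateField.adjoin k {x⁻¹, t / x ^ 2} := by
      have := mul_mem m2 (pow_mem m3 2)
      rwa [div_mul_cancel₀ _ (pow_ne_zero 2 hx0)] at this
    rintro y (rfl | hy)
    · exact m3
    · rw [Set.mem_singleton_iff] at hy
      rw [hy]; exact m4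

theorem reflect_aeval (hx0 : x ≠ 0) (P : k[X]) {N : ℕ} (hN : P.natDegree ≤ N) :
    aeval x⁻¹ P * x ^ N = aeval x (reflect N P) := by
  letI := invertibleOfNonzero hx0
  have h1 := eval₂_reflect_mul_pow (algebraMap k F) x N (reflect N P)
    (natDegree_reflect_le.trans (by simp [hN]))
  rw [reflect_reflect, invOf_eq_inv] at h1
  exact h1

/-- an element regular in both charts -/
theorem two_charts (H : IsCubic x t (fP k)) {p q r P Q R : k[X]}
    (he : aeval x p + aeval x q * t + aeval x r * t ^ 2 = -x ^ 2 * (aeval x⁻¹ P +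
      aeval x⁻¹ Q * (t / x ^ 2) + aeval x⁻¹ R * (t / x ^ 2) ^ 2)) :
    p.natDegree ≤ 2 ∧ q.natDegree = 0 ∧ r = 0 := by
  have hx0 : x ≠ 0 := by
    rintro rfl
    exact H.tr isAlgebraic_zero
  let N := max P.natDegree (max Q.natDegree R.natDegree)
  have hP : P.natDegree ≤ N := le_max_left _ _
  have hQ : Q.natDegree ≤ N := (le_max_left _ _).trans (le_max_right _ _)
  have hR : R.natDegree ≤ N := (le_max_right _ _).trans (le_max_right _ _)
  have h1 : aeval x (X ^ (N + 2) * p) + aeval x (X ^ (N + 2) * q) * t +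
      aeval x (X ^ (N + 2) * r) * t ^ 2 = aeval x (-(X ^ 4 * reflect N P)) +
      aeval x (-(X ^ 2 * reflect N Q)) * t + aeval x (-reflect N R) * t ^ 2 := by
    simp only [map_mul, map_neg, map_pow, aeval_X, ← reflect_aeval hx0 P hP,
      ← reflect_aeval hx0 Q hQ, ← reflect_aeval hx0 R hR]
    have h2 : x ^ (N + 2) * (-x ^ 2 * (aeval x⁻¹ P +
      aeval x⁻¹ Q * (t / x ^ 2) + aeval x⁻¹ R * (t / x ^ 2) ^ 2)) =
      -(x ^ 4 * (aeval x⁻¹ P * x ^ N)) - x ^ 2 * (aeval x⁻¹ Q * x ^ N) * t -
      (aeval x⁻¹ R * x ^ N) * t ^ 2 := by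
      rw [pow_add]
      field_simp
      ring
    linear_combination (x ^ (N + 2)) * he + h2
  obtain ⟨e1, e2, e3⟩ := coord_poly H h1
  have hr : ∀ P : k[X], P.natDegree ≤ N → (reflect N P).natDegree ≤ N := fun P hP =>
    natDegree_reflect_le.trans (by simp [hP])
  refine ⟨?_, ?_, ?_⟩
  · by_cases hp : p = 0
    · rw [hp]; simp
    · have h3 := congrArg natDegree e1
      rw [natDegree_mul (pow_ne_zero _ X_ne_zero) hp, natDegree_X_pow, natDegree_neg] at h3
      have h4 : (X ^ 4 * reflect N P : k[X]).natDegree ≤ 4 + N :=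
        natDegree_mul_le.trans (by rw [natDegree_X_pow]; have := hr P hP; omega)
      omega
  · by_cases hq : q = 0
    · rw [hq]; simp
    · have h3 := congrArg natDegree e2
      rw [natDegree_mul (pow_ne_zero _ X_ne_zero) hq, natDegree_X_pow, natDegree_neg] at h3
      have h4 : (X ^ 2 * reflect N Q : k[X]).natDegree ≤ 2 + N :=
        natDegree_mul_le.trans (by rw [natDegree_X_pow]; have := hr Q hQ; omega)
      omega
  · by_contra hr0
    have h3 := congrArg natDegree e3
    rw [natDegree_mul (pow_ne_zero _ X_ne_zero) hr0, natDegree_X_pow, natDegree_neg] at h3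
    have := hr R hR
    omega

/-- the pulled back differentials are global -/
theorem pullback (H : IsCubic x t (fP k)) (D : Derivation k F F) (hD : D x = 1)
    {a b : F} (hb : b ^ 3 = aeval a (fP k)) (hb0 : b ≠ 0) {i : ℕ} (hi : i ≤ 2) :
    ∃ (p : k[X]) (κ : k), p.natDegree ≤ 2 ∧
      t ^ 2 * D a * a ^ i / b ^ 2 = aeval x p + algebraMap k F κ * t := by
  have hx0 : x ≠ 0 := by
    rintro rfl
    exact H.tr isAlgebraic_zero
  obtain ⟨p, q, r, h1⟩ := chart H D hD (fP_separable k) (fP_natDegree k) hb hb0 hi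
  have hD' : ((-x ^ 2) • D : Derivation k F F) x⁻¹ = 1 := by
    rw [Derivation.smul_apply, Derivation.leibniz_inv, hD]
    simp only [smul_eq_mul]
    field_simp
  obtain ⟨P, Q, R, h2⟩ := chart (cubic_inv H) ((-x ^ 2) • D) hD' (fP_separable k) (fP_natDegree k)
    hb hb0 hi
  have h3 : aeval x p + aeval x q * t + aeval x r * t ^ 2 = -x ^ 2 * (aeval x⁻¹ P +
      aeval x⁻¹ Q * (t / x ^ 2) + aeval x⁻¹ R * (t / x ^ 2) ^ 2) := by
    rw [← h1, ← h2, Derivation.smul_apply, smul_eq_mul]
    field_simp
  obtain ⟨e1, e2, e3⟩ := two_charts H h3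
  refine ⟨p, q.coeff 0, e1, ?_⟩
  rw [h1, e3, eq_C_of_natDegree_eq_zero e2]
  simp

end infinity

end Pool.Agent.H585R2.FF
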