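import Mathlib
import Pool.Agent.H585R2.FF4

set_option autoImplicit false
set_option linter.style.haveILetI false
set_option linter.unusedSectionVars false

/-! Rigidity: the points of `b ^ 3 = 2 (a ^ 6 + a ^ 5 + 1)` over `k(x, t)` are constant or have
`a = x`. -/

namespace Pool.Agent.H585R2.FF

open Polynomial

section mobius

variable {k : Type*} [Field k] [CharZero k]

/-- a Möbius transformation preserving the sextic form is the identity -/
theorem mobius {α β γ δ l : k} (hdet : α * δ - β * γ ≠ 0)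
    (he : (C α * X + C β) ^ 6 + (C α * X + C β) ^ 5 * (C γ * X + C δ) + (C γ * X + C δ) ^ 6 =
      C l * (X ^ 6 + X ^ 5 + 1)) : β = 0 ∧ γ = 0 ∧ α = δ := by
  have ev : ∀ c : k, (α * c + β) ^ 6 + (α * c + β) ^ 5 * (γ * c + δ) + (γ * c + δ) ^ 6 =
      l * (c ^ 6 + c ^ 5 + 1) := by
    intro c
    have := congrArg (eval c) he
    simpa using this
  have v0 := ev 0
  have v1 := ev 1
  have v2 := ev (-1)
  have v3 := ev 2
  have v4 := ev (-2)
  have v5 := ev 3
  have v6 := ev (-3)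
  clear ev he
  have E6 : α ^ 6 + α ^ 5 * γ + γ ^ 6 = l := by
    linear_combination (-1 / 36 : k) * v0 + (1 / 48 : k) * v1 + (1 / 48 : k) * v2 -
      (1 / 120 : k) * v3 - (1 / 120 : k) * v4 + (1 / 720 : k) * v5 + (1 / 720 : k) * v6
  have E5 : 6 * α ^ 5 * β + (5 * α ^ 4 * β * γ + α ^ 5 * δ) + 6 * γ ^ 5 * δ = l := by
    linear_combination (1 / 48 : k) * v1 - (1 / 48 : k) * v2 -
      (1 / 60 : k) * v3 + (1 / 60 : k) * v4 + (1 / 240 : k) * v5 - (1 / 240 : k) * v6
  have E4 : 15 * α ^ 4 * β ^ 2 + (10 * α ^ 3 * β ^ 2 * γ + 5 * α ^ 4 * β * δ) +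
      15 * γ ^ 4 * δ ^ 2 = 0 := by
    linear_combination (7 / 18 : k) * v0 - (13 / 48 : k) * v1 - (13 / 48 : k) * v2 +
      (1 / 12 : k) * v3 + (1 / 12 : k) * v4 - (1 / 144 : k) * v5 - (1 / 144 : k) * v6
  have E3 : 20 * α ^ 3 * β ^ 3 + (10 * α ^ 2 * β ^ 3 * γ + 10 * α ^ 3 * β ^ 2 * δ) +
      20 * γ ^ 3 * δ ^ 3 = 0 := by
    linear_combination - (13 / 48 : k) * v1 + (13 / 48 : k) * v2 +
      (1 / 6 : k) * v3 - (1 / 6 : k) * v4 - (1 / 48 : k) * v5 + (1 / 48 : k) * v6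
  have E2 : 15 * α ^ 2 * β ^ 4 + (5 * α * β ^ 4 * γ + 10 * α ^ 2 * β ^ 3 * δ) +
      15 * γ ^ 2 * δ ^ 4 = 0 := by
    linear_combination (-49 / 36 : k) * v0 + (3 / 4 : k) * v1 + (3 / 4 : k) * v2 -
      (3 / 40 : k) * v3 - (3 / 40 : k) * v4 + (1 / 180 : k) * v5 + (1 / 180 : k) * v6
  have E1 : 6 * α * β ^ 5 + (β ^ 5 * γ + 5 * α * β ^ 4 * δ) + 6 * γ * δ ^ 5 = 0 := by
    linear_combination (3 / 4 : k) * v1 - (3 / 4 : k) * v2 -
      (3 / 20 : k) * v3 + (3 / 20 : k) * v4 + (1 / 60 : k) * v5 - (1 / 60 : k) * v6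
  clear v0 v1 v2 v3 v4 v5 v6
  -- the cubic form `8 E4 X ^ 3 + 18 E3 X ^ 2 Y + 24 E2 X Y ^ 2 + 20 E1 Y ^ 3`
  have psi : ∀ X Y : k, (6 * α * β ^ 2 + γ * β ^ 2 + 2 * δ * α * β) * (α * X + β * Y) ^ 3 +
      3 * α * β ^ 2 * (α * X + β * Y) ^ 2 * (γ * X + δ * Y) +
      6 * γ * δ ^ 2 * (γ * X + δ * Y) ^ 3 = 0 := by
    intro X Y
    linear_combination (8 / 20 : k) * X ^ 3 * E4 + (18 / 20 : k) * X ^ 2 * Y * E3 +
      (24 / 20 : k) * X * Y ^ 2 * E2 + Y ^ 3 * E1
  have C0 : γ * δ ^ 2 = 0 := by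
    have h1 := psi β (-α)
    have h2 : (6 * (α * δ - β * γ) ^ 3) * (γ * δ ^ 2) = 0 := by linear_combination (-1 : k) * h1
    exact (mul_eq_zero.1 h2).resolve_left (mul_ne_zero (by norm_num) (pow_ne_zero 3 hdet))
  have A0 : 6 * α * β ^ 2 + γ * β ^ 2 + 2 * δ * α * β = 0 := by
    have h1 := psi δ (-γ)
    have h2 : ((α * δ - β * γ) ^ 3) * (6 * α * β ^ 2 + γ * β ^ 2 + 2 * δ * α * β) = 0 := by
      linear_combination h1
    exact (mul_eq_zero.1 h2).resolve_left (pow_ne_zero 3 hdet)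
  have B0 : α * β ^ 2 = 0 := by
    have h1 : ∀ X Y : k, 3 * (α * β ^ 2) * ((α * X + β * Y) ^ 2 * (γ * X + δ * Y)) = 0 := by
      intro X Y
      linear_combination psi X Y - (α * X + β * Y) ^ 3 * A0 - 6 * (γ * X + δ * Y) ^ 3 * C0
    have h2 := h1 (δ - β) (α - γ)
    have h3 : (3 * (α * δ - β * γ) ^ 3) * (α * β ^ 2) = 0 := by linear_combination h2
    exact (mul_eq_zero.1 h3).resolve_left (mul_ne_zero (by norm_num) (pow_ne_zero 3 hdet))
  have hβ : β = 0 := by
    rcases mul_eq_zero.1 B0 with h1 | h1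
    · rw [h1] at A0 hdet
      have h2 : γ * β ^ 2 = 0 := by linear_combination A0
      rcases mul_eq_zero.1 h2 with h3 | h3
      · exfalso; apply hdet; rw [h3]; ring
      · exact pow_eq_zero_iff (by norm_num) |>.1 h3
    · exact pow_eq_zero_iff (by norm_num) |>.1 h1
  rw [hβ] at hdet
  have hαδ : α * δ ≠ 0 := by
    intro h1; apply hdet; rw [h1]; ring
  have hδ : δ ≠ 0 := right_ne_zero_of_mul hαδ
  have hα : α ≠ 0 := left_ne_zero_of_mul hαδ
  have hγ : γ = 0 := (mul_eq_zero.1 C0).resolve_right (pow_ne_zero 2 hδ)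
  refine ⟨hβ, hγ, ?_⟩
  rw [hβ, hγ] at E5
  rw [hγ] at E6
  have h1 : α ^ 5 * (α - δ) = 0 := by linear_combination E6 - E5
  exact sub_eq_zero.1 ((mul_eq_zero.1 h1).resolve_left (pow_ne_zero 5 hα))

end mobius

section local_

variable {k F : Type*} [Field k] [CharZero k] [Field F] [Algebra k F] {x t : F}

theorem linear_of_le_one {P : k[X]} (h : P.natDegree ≤ 1) : P = C (P.coeff 1) * X + C (P.coeff 0) :=
  eq_X_add_C_of_natDegree_le_one h

/-- **Rigidity.** -/
theorem rigid (H : IsCubic x t (fP k)) (D : Derivation k F F) (hD : D x = 1)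
    {a b : F} (hb : b ^ 3 = aeval a (fP k)) : (∃ c : k, a = algebraMap k F c) ∨ a = x := by
  have hcz : CharZero F := charZero_of_injective_algebraMap (algebraMap k F).injective
  by_cases hDa : D a = 0
  · exact Or.inl (constants H D hD hDa)
  right
  have hsq := H.sep.squarefree
  have hb0 : b ≠ 0 := by
    rintro rfl
    have h1 := congrArg D hb
    rw [der_aeval, zero_pow (by norm_num), map_zero] at h1
    rcases mul_eq_zero.1 h1.symm with h2 | h2
    · obtain ⟨u, w, huw⟩ := fP_separable k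
      have e1 := congrArg (aeval a) huw
      rw [map_add, map_mul, map_mul, map_one, h2, ← hb] at e1
      norm_num at e1
    · exact hDa h2
  have h0 : fP k ≠ 0 := hsq.ne_zero
  have ht0 : t ≠ 0 := by
    intro h1
    have := H.eq
    rw [h1, zero_pow (by norm_num)] at this
    exact ne_aeval H.tr h0 this.symm
  obtain ⟨p0, κ0, hp0, hu0⟩ := pullback H D hD hb hb0 (i := 0) (by norm_num)
  obtain ⟨p1, κ1, hp1, hu1⟩ := pullback H D hD hb hb0 (i := 1) (by norm_num)
  obtain ⟨p2, κ2, hp2, hu2⟩ := pullback H D hD hb hb0 (i := 2) (by norm_num)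
  rw [pow_zero, mul_one] at hu0
  rw [pow_one] at hu1
  have hG0 : t ^ 2 * D a / b ^ 2 ≠ 0 :=
    div_ne_zero (mul_ne_zero (pow_ne_zero 2 ht0) hDa) (pow_ne_zero 2 hb0)
  have r1 : aeval x p1 + algebraMap k F κ1 * t = a * (aeval x p0 + algebraMap k F κ0 * t) := by
    rw [← hu0, ← hu1]; ring
  have r2 : aeval x p2 + algebraMap k F κ2 * t = a ^ 2 * (aeval x p0 + algebraMap k F κ0 * t) := by
    rw [← hu0, ← hu2]; ring
  have prog : (aeval x p0 + algebraMap k F κ0 * t) * (aeval x p2 + algebraMap k F κ2 * t) =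
      (aeval x p1 + algebraMap k F κ1 * t) ^ 2 := by
    rw [r1, r2]; ring
  have q1 := coord_poly H (p := p0 * p2) (q := p0 * C κ2 + C κ0 * p2) (r := C κ0 * C κ2)
    (p' := p1 ^ 2) (q' := 2 * p1 * C κ1) (r' := C κ1 ^ 2) (by
      simp only [map_mul, map_add, map_pow, aeval_C, map_ofNat]
      linear_combination prog)
  obtain ⟨g1, g2, g3⟩ := q1
  -- the coefficients of `t` vanish
  have hκ0 : κ0 = 0 := by
    by_contra hκ
    have h1 : (C κ0 * p1 - C κ1 * p0) ^ 2 = 0 := by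
      linear_combination (-(C κ0 * C κ0)) * g1 + (C κ0 * p0) * g2 - p0 ^ 2 * g3
    have h2 : C κ0 * p1 = C κ1 * p0 := sub_eq_zero.1 (pow_eq_zero_iff (by norm_num) |>.1 h1)
    have h3 : algebraMap k F κ0 * (aeval x p1 + algebraMap k F κ1 * t) =
        algebraMap k F κ1 * (aeval x p0 + algebraMap k F κ0 * t) := by
      have := congrArg (aeval x) h2
      simp only [map_mul, aeval_C] at this
      linear_combination this
    rw [r1, ← hu0] at h3
    have h4 : algebraMap k F κ0 * a = algebraMap k F κ1 := by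
      apply mul_right_cancel₀ hG0
      linear_combination h3
    have h5 := congrArg D h4
    rw [Derivation.leibniz, Derivation.map_algebraMap, Derivation.map_algebraMap, smul_zero,
      add_zero, smul_eq_mul] at h5
    rcases mul_eq_zero.1 h5 with h6 | h6
    · exact hκ ((map_eq_zero _).1 h6)
    · exact hDa h6
  have hκ1 : κ1 = 0 := by
    rw [hκ0, C_0, zero_mul] at g3
    have := pow_eq_zero_iff (by norm_num) |>.1 g3.symm
    exact C_eq_zero.1 this
  rw [hκ0, map_zero, zero_mul, add_zero] at hu0 r1 r2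
  rw [hκ1, map_zero, zero_mul, add_zero] at r1
  have hp00 : p0 ≠ 0 := by
    rintro rfl
    rw [map_zero] at hu0
    exact hG0 hu0
  have hp0x : aeval x p0 ≠ 0 := ne_aeval H.tr hp00
  -- `a` as a reduced fraction
  let ψ := algebraMap k[X] (FractionRing k[X])
  obtain ⟨P, Q, hcop, hQ, hPQ⟩ := exists_coprime (k := k) (ψ p1 / ψ p0)
  have hψ : ∀ {s : k[X]}, s ≠ 0 → ψ s ≠ 0 := fun hs => by
    rw [Ne, IsFractionRing.to_map_eq_zero_iff]; exact hs
  have hψinj : Function.Injective ψ := IsFractionRing.injective k[X] (FractionRing k[X])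
  have hPQ1 : p1 * Q = P * p0 := by
    rw [div_eq_div_iff (hψ hp00) (hψ hQ), ← map_mul, ← map_mul] at hPQ
    exact hψinj hPQ
  have hQx : aeval x Q ≠ 0 := ne_aeval H.tr hQ
  have haPQ : a * aeval x Q = aeval x P := by
    have h1 := congrArg (aeval x) hPQ1
    rw [map_mul, map_mul, r1] at h1
    apply mul_right_cancel₀ hp0x
    linear_combination h1
  have hQ2 : Q ^ 2 ∣ p0 := by
    have h1 : p2 * Q ^ 2 = P ^ 2 * p0 := by
      apply mul_left_cancel₀ hp00
      linear_combination (Q ^ 2) * g1 + (p1 * Q + P * p0) * hPQ1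
    have h2 : Q ^ 2 ∣ P ^ 2 * p0 := ⟨p2, by rw [← h1]; ring⟩
    exact (IsCoprime.pow hcop.symm).dvd_of_dvd_mul_left h2
  obtain ⟨g, hg⟩ := hQ2
  have hg0 : g ≠ 0 := by
    rintro rfl
    exact hp00 (by rw [hg, mul_zero])
  have hp2g : p2 = P ^ 2 * g := by
    apply mul_right_cancel₀ (pow_ne_zero 2 hQ)
    apply mul_left_cancel₀ hp00
    have h1 : p2 * Q ^ 2 * p0 = P ^ 2 * p0 * p0 := by
      linear_combination (Q ^ 2) * g1 + (p1 * Q + P * p0) * hPQ1
    rw [hg] at h1 ⊢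
    linear_combination h1
  have dQ : Q.natDegree ≤ 1 := by
    rw [hg, natDegree_mul (pow_ne_zero 2 hQ) hg0, natDegree_pow] at hp0
    omega
  have dP : P.natDegree ≤ 1 := by
    by_cases hP : P = 0
    · rw [hP]; simp
    · rw [hp2g, natDegree_mul (pow_ne_zero 2 hP) hg0, natDegree_pow] at hp2
      omega
  -- the function `b / t`
  have hDaw : D a * aeval x (p0 ^ 2) = aeval x (derivative p1 * p0 - p1 * derivative p0) := by
    have h1 := congrArg D r1
    rw [der_aeval, hD, mul_one, Derivation.leibniz, der_aeval, hD, mul_one, smul_eq_mul,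
      smul_eq_mul] at h1
    simp only [map_mul, map_sub, map_pow, r1, h1]
    ring
  set w := derivative p1 * p0 - p1 * derivative p0 with hw
  have hw0 : w ≠ 0 := by
    intro h1
    rw [h1, map_zero] at hDaw
    exact (mul_ne_zero hDa (ne_aeval H.tr (pow_ne_zero 2 hp00))) hDaw
  set Φ := 2 * (P ^ 6 + P ^ 5 * Q + Q ^ 6) with hΦ
  have hfa : aeval a (fP k) * aeval x Q ^ 6 = aeval x Φ := by
    have : aeval a (fP k) = 2 * a ^ 6 + 2 * a ^ 5 + 2 := by
      simp only [fP, map_add, map_mul, map_pow, aeval_X, map_ofNat]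
    rw [this, hΦ]
    simp only [map_mul, map_add, map_pow, map_ofNat, ← haPQ]
    ring
  have he2 : (b / t) ^ 2 * aeval x (p0 ^ 3) = aeval x w := by
    rw [← hDaw]
    have h1 : t ^ 2 * D a = aeval x p0 * b ^ 2 := by
      rw [← hu0, div_mul_cancel₀ _ (pow_ne_zero 2 hb0)]
    rw [div_pow, map_pow, map_pow, div_mul_eq_mul_div, div_eq_iff (pow_ne_zero 2 ht0)]
    linear_combination (-(aeval x p0 ^ 2)) * h1
  have he3 : (b / t) ^ 3 * aeval x (fP k * Q ^ 6) = aeval x Φ := by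
    rw [← hfa, ← hb, map_mul, ← H.eq, map_pow]
    field_simp
  have he1 : (b / t) * aeval x (fP k * Q ^ 6 * w) = aeval x (Φ * p0 ^ 3) := by
    rw [map_mul (aeval x) Φ, ← he3, map_mul (aeval x) (fP k * Q ^ 6) w, ← he2]
    ring
  -- `e Q ^ 2` is a polynomial
  have hcube : (ψ (Φ * p0 ^ 3) / ψ (fP k * Q ^ 4 * w)) ^ 3 * ψ (fP k) ^ 1 = ψ Φ := by
    have n1 : fP k * Q ^ 6 * w ≠ 0 := mul_ne_zero (mul_ne_zero h0 (pow_ne_zero 6 hQ)) hw0
    have n2 : fP k * Q ^ 4 * w ≠ 0 := mul_ne_zero (mul_ne_zero h0 (pow_ne_zero 4 hQ)) hw0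
    have h1 : (Φ * p0 ^ 3) ^ 3 * (fP k * Q ^ 6) = Φ * (fP k * Q ^ 6 * w) ^ 3 := by
      have h2 : aeval x ((Φ * p0 ^ 3) ^ 3 * (fP k * Q ^ 6)) =
          aeval x (Φ * (fP k * Q ^ 6 * w) ^ 3) := by
        rw [map_mul, map_pow, ← he1, map_mul (aeval x) Φ, ← he3, map_pow]
        ring
      exact transcendental_iff_injective.1 H.tr h2
    have h3 : (Φ * p0 ^ 3) ^ 3 * fP k = Φ * (fP k * Q ^ 4 * w) ^ 3 := by
      apply mul_right_cancel₀ (pow_ne_zero 6 hQ)
      linear_combination h1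
    rw [div_pow, pow_one, div_mul_eq_mul_div, div_eq_iff (pow_ne_zero 3 (hψ n2))]
    simp only [← map_pow, ← map_mul]
    rw [h3]
  obtain ⟨z, hz⟩ := poly_of_cube hsq (m := 1) (by norm_num) hcube
  rw [hz, pow_one] at hcube
  have hz3 : z ^ 3 * fP k = Φ := by
    apply hψinj
    rw [map_mul, map_pow]; exact hcube
  -- write down the Möbius transformation
  obtain ⟨α, β, hP⟩ : ∃ α β : k, P = C α * X + C β := ⟨_, _, linear_of_le_one dP⟩
  obtain ⟨γ, δ, hQ'⟩ : ∃ γ δ : k, Q = C γ * X + C δ := ⟨_, _, linear_of_le_one dQ⟩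
  have hdet : α * δ - β * γ ≠ 0 := by
    intro hdet
    have h1 : C γ * P = C α * Q := by
      rw [hP, hQ']
      have : (C α * C δ - C β * C γ : k[X]) = 0 := by
        rw [← C_mul, ← C_mul, ← C_sub, hdet, C_0]
      linear_combination (-1 : k[X]) * this
    by_cases hγ : γ = 0
    · rw [hγ, C_0, zero_mul] at h1
      have hα : α = 0 := by
        rcases mul_eq_zero.1 h1.symm with h2 | h2
        · exact C_eq_zero.1 h2
        · exact absurd h2 hQ
      rw [hα, C_0, zero_mul, zero_add] at hP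
      rw [hγ, C_0, zero_mul, zero_add] at hQ'
      rw [hP, hQ', aeval_C, aeval_C] at haPQ
      have h2 := congrArg D haPQ
      rw [Derivation.leibniz, Derivation.map_algebraMap, Derivation.map_algebraMap, smul_zero,
        zero_add, smul_eq_mul] at h2
      rcases mul_eq_zero.1 h2 with h3 | h3
      · rw [hQ', (map_eq_zero _).1 h3] at hQ
        simp at hQ
      · exact hDa h3
    · have hu : IsUnit (C γ : k[X]) := isUnit_C.2 (isUnit_iff_ne_zero.2 hγ)
      have h2 : Q ∣ C γ * P := ⟨C α, by rw [h1]; ring⟩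
      have h3 : Q ∣ C γ := hcop.symm.dvd_of_dvd_mul_right h2
      have h4 : IsUnit Q := isUnit_of_dvd_unit h3 hu
      have h5 := natDegree_eq_zero_of_isUnit h4
      rw [hQ', natDegree_linear hγ] at h5
      exact one_ne_zero h5
  have hΦ0 : Φ ≠ 0 := by
    intro h1
    have h2 := ne_aeval H.tr (mul_ne_zero h0 (pow_ne_zero 6 hQ))
    rw [h1, map_zero] at he3
    exact mul_ne_zero (pow_ne_zero 3 (div_ne_zero hb0 ht0)) h2 he3
  have hz0 : z ≠ 0 := by
    rintro rfl
    rw [zero_pow (by norm_num), zero_mul] at hz3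
    exact hΦ0 hz3.symm
  have dz : z.natDegree = 0 := by
    have h1 := congrArg natDegree hz3
    rw [natDegree_mul (pow_ne_zero 3 hz0) h0, natDegree_pow, fP_natDegree] at h1
    have h2 : Φ.natDegree ≤ 6 := by
      rw [hΦ]
      refine (natDegree_mul_le).trans ?_
      have e0 : (2 : k[X]).natDegree = 0 := natDegree_ofNat 2
      have e1 : (P ^ 6).natDegree ≤ 6 := (natDegree_pow_le).trans (by omega)
      have e2 : (P ^ 5 * Q).natDegree ≤ 6 := (natDegree_mul_le).trans (by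
        have := natDegree_pow_le (p := P) (n := 5)
        omega)
      have e3 : (Q ^ 6).natDegree ≤ 6 := (natDegree_pow_le).trans (by omega)
      have e4 := (natDegree_add_le (P ^ 6 + P ^ 5 * Q) (Q ^ 6)).trans
        (max_le ((natDegree_add_le _ _).trans (max_le e1 e2)) e3)
      omega
    omega
  rw [eq_C_of_natDegree_eq_zero dz] at hz3
  have hmob := mobius hdet (l := z.coeff 0 ^ 3) (by
    rw [← hP, ← hQ']
    apply mul_left_cancel₀ (two_ne_zero (α := k[X]))
    rw [← hΦ, ← hz3, fP, C_pow]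
    ring)
  obtain ⟨hβ, hγ, hαδ⟩ := hmob
  rw [hP, hQ', hβ, hγ, hαδ] at haPQ
  simp only [map_add, map_mul, aeval_C, aeval_X, map_zero, zero_mul, zero_add, add_zero] at haPQ
  have hδ : algebraMap k F δ ≠ 0 := by
    intro h1
    rw [hβ, hαδ, (map_eq_zero _).1 h1] at hdet
    simp at hdet
  apply mul_right_cancel₀ hδ
  rw [haPQ]; ring

end local_

end Pool.Agent.H585R2.FF
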