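import Mathlib
import Pool.Agent.H585R2.FF5

set_option autoImplicit false
set_option linter.style.haveILetI false
set_option linter.unusedSectionVars false

/-! Existence of `d/dx`, and rigidity without a derivation in the hypotheses. -/

namespace Pool.Agent.H585R2.FF

open Polynomial

/-- a differential ring from a function with the properties of a derivation -/
@[reducible]
def mkDiff {R : Type*} [CommRing R] (f : R → R) (hadd : ∀ a b, f (a + b) = f a + f b)
    (hmul : ∀ a b, f (a * b) = a * f b + b * f a) : Differential R :=
  ⟨{ toLinearMap := (AddMonoidHom.mk' f hadd).toIntLinearMap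
     map_one_eq_zero' := by
      change f 1 = 0
      have := hmul 1 1
      rw [one_mul, one_mul] at this
      exact left_eq_add.1 this
     leibniz' := hmul }⟩

section

variable {k F : Type*} [Field k] [CharZero k] [Field F] [Algebra k F] {x t : F} {h : k[X]}

open Differential in
theorem exists_der (H : IsCubic x t h) : ∃ D : Derivation k F F, D x = 1 := by
  letI := algX (k := k) x
  haveI := faithX H.tr
  haveI := towerX (k := k) x
  letI : Algebra (RatFunc k) F := RatFunc.liftAlgebra k F
  haveI : IsScalarTower k[X] (RatFunc k) F := RatFunc.isScalarTower_liftAlgebra k F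
  haveI : IsScalarTower k (RatFunc k) F := by
    refine IsScalarTower.of_algebraMap_eq fun c => ?_
    rw [DiffC.algebraMap_C, ← IsScalarTower.algebraMap_apply k[X] (RatFunc k) F]
    change _ = aeval x (C c)
    rw [aeval_C]
  have hXx : algebraMap (RatFunc k) F RatFunc.X = x := by
    rw [← RatFunc.algebraMap_X, ← IsScalarTower.algebraMap_apply]
    exact aeval_X x
  have hgen : IntermediateField.adjoin (RatFunc k) {t} = ⊤ :=
    gen_general (k := k) (x := x) ⟨RatFunc.X, hXx⟩ H.gen
  have hfin := finrank_eq (K := RatFunc k) (t := t) H.sep.squarefree H.pos H.eq hgen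
  haveI : FiniteDimensional (RatFunc k) F := Module.finite_of_finrank_pos (by rw [hfin]; norm_num)
  letI : Differential (RatFunc k) := mkDiff (DiffC.dd (k := k)) DiffC.dd_add DiffC.dd_mul
  haveI : CharZero (RatFunc k) := charZero_of_injective_algebraMap
    (algebraMap k (RatFunc k)).injective
  letI : Differential F := differentialFiniteDimensional (RatFunc k) F
  haveI : DifferentialAlgebra (RatFunc k) F := differentialAlgebraFiniteDimensional
  let d : Derivation ℤ F F := Differential.deriv
  have hd : ∀ f : RatFunc k, d (algebraMap (RatFunc k) F f) =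
      algebraMap (RatFunc k) F (DiffC.dd f) := fun f => deriv_algebraMap f
  have hc : ∀ c : k, d (algebraMap k F c) = 0 := by
    intro c
    rw [IsScalarTower.algebraMap_apply k (RatFunc k) F, hd]
    have : DiffC.dd (algebraMap k (RatFunc k) c) = 0 :=
      (DiffC.ddt : Derivation k (RatFunc k) (RatFunc k)).map_algebraMap c
    rw [this, map_zero]
  refine ⟨{ toFun := d
            map_add' := d.map_add
            map_smul' := fun c y => ?_
            map_one_eq_zero' := d.map_one_eq_zero
            leibniz' := d.leibniz }, ?_⟩
  · rw [Algebra.smul_def, Derivation.leibniz, hc, smul_zero, add_zero, RingHom.id_apply,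
      smul_eq_mul]
    exact (Algebra.smul_def c (d y)).symm
  · change d x = 1
    rw [← hXx, hd]
    have : DiffC.dd (RatFunc.X : RatFunc k) = 1 := DiffC.ddt_X
    rw [this, map_one]

/-- **Rigidity**: the points of the curve over its own function field. -/
theorem points_step (H : IsCubic x t (fP k)) {a b : F} (hb : b ^ 3 = aeval a (fP k)) :
    (∃ c d : k, a = algebraMap k F c ∧ b = algebraMap k F d) ∨ a = x := by
  obtain ⟨D, hD⟩ := exists_der H
  rcases rigid H D hD hb with ⟨c, hc⟩ | h1
  · left
    have hcz : CharZero F := charZero_of_injective_algebraMap (algebraMap k F).injective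
    have h2 : D b = 0 := by
      by_cases hb0 : b = 0
      · rw [hb0, map_zero]
      · have h3 := congrArg D hb
        rw [der_aeval, Derivation.leibniz_pow, hc, Derivation.map_algebraMap, mul_zero] at h3
        simp only [Nat.add_one_sub_one, smul_eq_mul, nsmul_eq_mul] at h3
        rcases mul_eq_zero.1 h3 with h4 | h4
        · norm_num at h4
        · exact (mul_eq_zero.1 h4).resolve_left (pow_ne_zero 2 hb0)
    obtain ⟨d, hd⟩ := constants H D hD h2
    exact ⟨c, d, hc, hd⟩
  · exact Or.inr h1

/-- cube roots of unity are constants -/
theorem unity_step (H : IsCubic x t h) {w : F} (hw : w ^ 3 = 1) : ∃ c : k, w = algebraMap k F c := by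
  obtain ⟨D, hD⟩ := exists_der H
  have hcz : CharZero F := charZero_of_injective_algebraMap (algebraMap k F).injective
  have hw0 : w ≠ 0 := by
    rintro rfl
    norm_num at hw
  have h3 := congrArg D hw
  rw [Derivation.leibniz_pow, Derivation.map_one_eq_zero] at h3
  simp only [Nat.add_one_sub_one, smul_eq_mul, nsmul_eq_mul] at h3
  refine constants H D hD ?_
  rcases mul_eq_zero.1 h3 with h4 | h4
  · norm_num at h4
  · exact (mul_eq_zero.1 h4).resolve_left (pow_ne_zero 2 hw0)

end

end Pool.Agent.H585R2.FF
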