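import Mathlib
import Pool.Agent.H585R2.FF6

set_option autoImplicit false
set_option linter.style.haveILetI false
set_option linter.unusedSectionVars false

/-! The tower of function fields `ℚ(x_j, t_j : j < n)`. -/

namespace Pool.Agent.H585R2.FF

open Polynomial

/-- there is no rational point -/
theorem no_rat (a b : ℚ) (h : b ^ 3 = 2 * a ^ 6 + 2 * a ^ 5 + 2) : False := by
  have hn0 : (a.den : ℚ) ≠ 0 := by exact_mod_cast a.den_nz
  have ha : a = a.num / a.den := (Rat.num_div_den a).symm
  set m : ℤ := a.num with hm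
  set n : ℤ := (a.den : ℤ) with hn
  have hn0' : (n : ℚ) ≠ 0 := by rw [hn]; exact_mod_cast a.den_nz
  have hcop : ¬ (Even m ∧ Even n) := by
    rintro ⟨h1, h2⟩
    have h3 : (2 : ℕ) ∣ a.num.natAbs := by
      rw [← Int.natCast_dvd_natCast, Int.dvd_natAbs]
      exact_mod_cast even_iff_two_dvd.1 h1
    have h4 : (2 : ℕ) ∣ a.den := by
      have := even_iff_two_dvd.1 h2
      rw [hn] at this
      exact_mod_cast this
    have h5 := Nat.dvd_gcd h3 h4
    have h6 := a.reduced
    rw [Nat.Coprime] at h6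
    rw [h6] at h5
    norm_num at h5
  let M : ℤ := m ^ 6 + m ^ 5 * n + n ^ 6
  have hM : Odd M := by
    rcases Int.even_or_odd m with h1 | h1 <;> rcases Int.even_or_odd n with h2 | h2
    · exact absurd ⟨h1, h2⟩ hcop
    · have e1 : Even (m ^ 6 + m ^ 5 * n) :=
        (h1.pow_of_ne_zero (by norm_num)).add ((h1.pow_of_ne_zero (by norm_num)).mul_right n)
      exact e1.add_odd (h2.pow)
    · have e1 : Even (m ^ 5 * n + n ^ 6) :=
        (h2.mul_left _).add (h2.pow_of_ne_zero (by norm_num))
      have : M = m ^ 6 + (m ^ 5 * n + n ^ 6) := by simp only [M]; ring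
      rw [this]
      exact (h1.pow).add_even e1
    · have e1 : Even (m ^ 6 + m ^ 5 * n) := (h1.pow).add_odd ((h1.pow).mul h2)
      exact e1.add_odd (h2.pow)
  have key : (b * n ^ 2) ^ 3 = 2 * M := by
    have h1 : (b * n ^ 2) ^ 3 = b ^ 3 * (n : ℚ) ^ 6 := by ring
    have h2 : (a.den : ℚ) = (n : ℚ) := by rw [hn]; simp
    rw [h1, h, ha, h2]
    simp only [M]
    push_cast
    field_simp
  have hv := congrArg (padicValRat 2) key
  have hM0 : (M : ℚ) ≠ 0 := by
    intro h1
    have : M = 0 := by exact_mod_cast h1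
    rw [this] at hM
    exact absurd hM (by decide)
  have hb0 : b * n ^ 2 ≠ 0 := by
    intro h1
    rw [h1, zero_pow (by norm_num)] at key
    exact mul_ne_zero two_ne_zero hM0 key.symm
  haveI : Fact (Nat.Prime 2) := ⟨Nat.prime_two⟩
  rw [padicValRat.pow, padicValRat.mul two_ne_zero hM0] at hv
  have h2 : padicValRat 2 (2 : ℚ) = 1 := by
    have := padicValRat.self (p := 2) (by norm_num)
    exact_mod_cast this
  have h3 : padicValRat 2 (M : ℚ) = 0 := by
    rw [padicValRat.of_int]
    have : padicValInt 2 M = 0 := by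
      apply padicValInt.eq_zero_of_not_dvd
      intro h4
      exact (Int.not_even_iff_odd.2 hM) (even_iff_two_dvd.2 (by exact_mod_cast h4))
    rw [this]; rfl
  rw [h2, h3] at hv
  push_cast at hv
  omega

section tower

variable {Ω : Type*} [Field Ω] [CharZero Ω] (x t : ℕ → Ω)

/-- the generators with index less than `n` -/
def gens (n : ℕ) : Set Ω := {y | ∃ j < n, y = x j ∨ y = t j}

/-- `ℚ(x_j, t_j : j < n)` -/
def Kn (n : ℕ) : IntermediateField ℚ Ω := IntermediateField.adjoin ℚ (gens x t n)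

theorem Kn_zero : Kn x t 0 = ⊥ := by
  have : gens x t 0 = ∅ := by
    ext y; simp [gens]
  rw [Kn, this, IntermediateField.adjoin_empty]

theorem Kn_mono {m n : ℕ} (h : m ≤ n) : Kn x t m ≤ Kn x t n := by
  apply IntermediateField.adjoin.mono
  rintro y ⟨j, hj, hy⟩
  exact ⟨j, hj.trans_le h, hy⟩

/-- the step of the tower -/
abbrev Fn (n : ℕ) : IntermediateField (Kn x t n) Ω :=
  IntermediateField.adjoin (Kn x t n) {x n, t n}

theorem xn_mem (n : ℕ) : x n ∈ Fn x t n :=
  IntermediateField.subset_adjoin (Kn x t n) {x n, t n} (Set.mem_insert _ _)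

theorem tn_mem (n : ℕ) : t n ∈ Fn x t n :=
  IntermediateField.subset_adjoin (Kn x t n) {x n, t n} (Set.mem_insert_of_mem _ rfl)

theorem Kn_succ_le (n : ℕ) {y : Ω} (hy : y ∈ Kn x t (n + 1)) : y ∈ Fn x t n := by
  have h1 : Kn x t (n + 1) ≤ (Fn x t n).restrictScalars ℚ := by
    rw [Kn, IntermediateField.adjoin_le_iff]
    rintro y ⟨j, hj, hy⟩
    rcases Nat.lt_succ_iff_lt_or_eq.1 hj with h2 | h2
    · have h3 : y ∈ Kn x t n := IntermediateField.subset_adjoin ℚ _ ⟨j, h2, hy⟩
      exact (Fn x t n).algebraMap_mem ⟨y, h3⟩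
    · rw [h2] at hy
      rcases hy with h3 | h3
      · rw [h3]; exact xn_mem x t n
      · rw [h3]; exact tn_mem x t n
  exact h1 hy

variable {x t}

/-- the new variable is transcendental over the previous field -/
theorem transc (hx : AlgebraicIndependent ℚ x) (ht : ∀ i, t i ^ 3 = aeval (x i) (fP ℚ)) (n : ℕ) :
    Transcendental (Kn x t n) (x n) := by
  let E : IntermediateField ℚ Ω := IntermediateField.adjoin ℚ (x '' {j | j < n})
  have h1 : Transcendental E (x n) := by
    rw [IntermediateField.transcendental_adjoin_iff]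
    exact hx.transcendental_adjoin (s := {j | j < n}) (by simp)
  let M : IntermediateField E Ω := algebraicClosure E Ω
  have hmem : ∀ j < n, x j ∈ M ∧ t j ∈ M := by
    intro j hj
    have hxj : x j ∈ E := IntermediateField.subset_adjoin ℚ _ ⟨j, hj, rfl⟩
    refine ⟨M.algebraMap_mem ⟨x j, hxj⟩, ?_⟩
    rw [mem_algebraicClosure_iff]
    refine IsIntegral.isAlgebraic ?_
    refine IsIntegral.of_pow (n := 3) (by norm_num) ?_
    rw [ht j]
    have h2 : aeval (x j) (fP ℚ) ∈ E := by
      have : aeval (x j) (fP ℚ) = 2 * x j ^ 6 + 2 * x j ^ 5 + 2 := by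
        simp only [fP, map_add, map_mul, map_pow, aeval_X, map_ofNat]
      rw [this]
      exact add_mem (add_mem (mul_mem (ofNat_mem E 2) (pow_mem hxj 6))
        (mul_mem (ofNat_mem E 2) (pow_mem hxj 5))) (ofNat_mem E 2)
    exact isIntegral_algebraMap (R := E) (x := ⟨_, h2⟩)
  have hle : Kn x t n ≤ M.restrictScalars ℚ := by
    rw [Kn, IntermediateField.adjoin_le_iff]
    rintro y ⟨j, hj, hy⟩
    rcases hy with rfl | rfl
    · exact (hmem j hj).1
    · exact (hmem j hj).2
  intro h2
  apply h1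
  -- algebraic over `Kn`, hence over `M`, hence over `E`
  have h3 : IsAlgebraic M (x n) := by
    obtain ⟨p, hp0, hp⟩ := h2
    let φ : Kn x t n →+* M := (IntermediateField.inclusion hle).toRingHom
    refine ⟨p.map φ, (Polynomial.map_ne_zero_iff φ.injective).2 hp0, ?_⟩
    rw [aeval_def, eval₂_map]
    exact hp
  haveI : Algebra.IsAlgebraic E M := algebraicClosure.isAlgebraic E Ω
  exact h3.restrictScalars E

/-- the cubic function field of the step -/
theorem isCubic_step (hx : AlgebraicIndependent ℚ x) (ht : ∀ i, t i ^ 3 = aeval (x i) (fP ℚ))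
    (n : ℕ) : IsCubic (k := Kn x t n) (F := Fn x t n)
      (⟨x n, xn_mem x t n⟩ : Fn x t n)
      (⟨t n, tn_mem x t n⟩ : Fn x t n) (fP (Kn x t n)) := by
  refine ⟨?_, fP_separable _, by rw [fP_natDegree]; norm_num, ?_, ?_⟩
  · intro h1
    apply transc hx ht n
    exact h1.algHom (Fn x t n).val
  · apply Subtype.ext
    have h1 := ht n
    simp only [fP, map_add, map_mul, map_pow, aeval_X, map_ofNat] at h1 ⊢
    exact h1
  · rw [eq_top_iff]
    rintro ⟨y, hy⟩ -
    have h1 : (IntermediateField.adjoin (Kn x t n)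
        {(⟨x n, xn_mem x t n⟩ : Fn x t n),
         (⟨t n, tn_mem x t n⟩ : Fn x t n)}).map (Fn x t n).val =
        Fn x t n := by
      rw [IntermediateField.adjoin_map]
      congr 1
      ext z
      simp only [Set.mem_image, Set.mem_insert_iff, Set.mem_singleton_iff]
      constructor
      · rintro ⟨w, rfl | rfl, rfl⟩
        · left; rfl
        · right; rfl
      · rintro (rfl | rfl)
        · exact ⟨_, Or.inl rfl, rfl⟩
        · exact ⟨_, Or.inr rfl, rfl⟩
    rw [← h1] at hy
    obtain ⟨w, hw, hwy⟩ := hy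
    have : w = ⟨y, by rw [← hwy]; exact w.2⟩ := Subtype.ext hwy
    rw [← this]
    exact hw

theorem unity (hx : AlgebraicIndependent ℚ x) (ht : ∀ i, t i ^ 3 = aeval (x i) (fP ℚ)) (n : ℕ) :
    ∀ w ∈ Kn x t n, w ^ 3 = 1 → w = 1 := by
  induction n with
  | zero =>
    intro w hw h1
    rw [Kn_zero, IntermediateField.mem_bot] at hw
    obtain ⟨q, rfl⟩ := hw
    have h2 : q ^ 3 = 1 := by
      apply (algebraMap ℚ Ω).injective
      rw [map_pow, h1, map_one]
    have h3 : q = 1 := by
      have : Odd 3 := by decide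
      exact this.strictMono_pow.injective (by simpa using h2)
    rw [h3, map_one]
  | succ n ih =>
    intro w hw h1
    have hwF := Kn_succ_le x t n hw
    obtain ⟨c, hc⟩ := unity_step (isCubic_step hx ht n) (w := (⟨w, hwF⟩ : Fn x t n))
      (Subtype.ext h1)
    have h2 : w = (c : Ω) := congrArg Subtype.val hc
    rw [h2] at h1 ⊢
    exact ih _ c.2 h1

/-- the points over the fields of the tower -/
theorem points_n (hx : AlgebraicIndependent ℚ x) (ht : ∀ i, t i ^ 3 = aeval (x i) (fP ℚ)) (n : ℕ) :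
    ∀ a ∈ Kn x t n, ∀ b ∈ Kn x t n, b ^ 3 = aeval a (fP ℚ) → ∃ j, a = x j ∧ b = t j := by
  have hf : ∀ a : Ω, aeval a (fP ℚ) = 2 * a ^ 6 + 2 * a ^ 5 + 2 := by
    intro a
    simp only [fP, map_add, map_mul, map_pow, aeval_X, map_ofNat]
  induction n with
  | zero =>
    intro a ha b hb h1
    exfalso
    rw [Kn_zero, IntermediateField.mem_bot] at ha hb
    obtain ⟨p, rfl⟩ := ha
    obtain ⟨q, rfl⟩ := hb
    apply no_rat p q
    rw [hf] at h1
    apply (algebraMap ℚ Ω).injective
    simp only [map_add, map_mul, map_pow, map_ofNat]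
    exact h1
  | succ n ih =>
    intro a ha b hb h1
    have haF := Kn_succ_le x t n ha
    have hbF := Kn_succ_le x t n hb
    rcases points_step (isCubic_step hx ht n) (a := (⟨a, haF⟩ : Fn x t n))
      (b := (⟨b, hbF⟩ : Fn x t n)) (by
        apply Subtype.ext
        rw [hf] at h1
        simp only [fP, map_add, map_mul, map_pow, aeval_X, map_ofNat]
        exact h1) with ⟨c, d, hc, hd⟩ | h2
    · have hc' : a = (c : Ω) := congrArg Subtype.val hc
      have hd' : b = (d : Ω) := congrArg Subtype.val hd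
      rw [hc', hd'] at h1 ⊢
      exact ih _ c.2 _ d.2 h1
    · have h3 : a = x n := congrArg Subtype.val h2
      refine ⟨n, h3, ?_⟩
      have ht0 : t n ≠ 0 := by
        intro h4
        have h5 := transc hx ht n
        have h6 : aeval (x n) (fP (Kn x t n)) = 0 := by
          have h7 := ht n
          rw [h4, zero_pow (by norm_num), hf] at h7
          simp only [fP, map_add, map_mul, map_pow, aeval_X, map_ofNat]
          exact h7.symm
        have h7 := transcendental_iff.1 h5 _ h6
        have h8 := fP_natDegree (Kn x t n)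
        rw [h7] at h8
        simp at h8
      have htn : t n ∈ Kn x t (n + 1) := IntermediateField.subset_adjoin ℚ _
        ⟨n, Nat.lt_succ_self n, Or.inr rfl⟩
      have h4 : (b / t n) ^ 3 = 1 := by
        rw [div_pow, ht n, h1, h3, div_self]
        rw [← ht n]
        exact pow_ne_zero 3 ht0
      have h5 := unity hx ht (n + 1) _ (div_mem hb htn) h4
      exact (div_eq_one_iff_eq ht0).1 h5

/-- the field generated by all `x_i, t_i` -/
abbrev Kinf (x t : ℕ → Ω) : IntermediateField ℚ Ω :=
  IntermediateField.adjoin ℚ (Set.range x ∪ Set.range t)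

theorem exists_level {y : Ω} (hy : y ∈ Kinf x t) : ∃ n, y ∈ Kn x t n := by
  obtain ⟨T, hT, hy⟩ := IntermediateField.exists_finset_of_mem_adjoin hy
  have h1 : ∀ z ∈ T, ∃ n, z ∈ gens x t n := by
    intro z hz
    rcases hT hz with ⟨j, rfl⟩ | ⟨j, rfl⟩
    · exact ⟨j + 1, j, Nat.lt_succ_self j, Or.inl rfl⟩
    · exact ⟨j + 1, j, Nat.lt_succ_self j, Or.inr rfl⟩
  choose! N hN using h1
  refine ⟨T.sup N, ?_⟩
  refine IntermediateField.adjoin.mono ℚ _ _ ?_ hy
  intro z hz
  obtain ⟨j, hj, h2⟩ := hN z hz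
  exact ⟨j, hj.trans_le (Finset.le_sup hz), h2⟩

/-- **All points of the curve over `ℚ(x_i, t_i : i)`.** -/
theorem points (hx : AlgebraicIndependent ℚ x) (ht : ∀ i, t i ^ 3 = aeval (x i) (fP ℚ))
    {a b : Ω} (ha : a ∈ Kinf x t) (hb : b ∈ Kinf x t) (h1 : b ^ 3 = aeval a (fP ℚ)) :
    ∃ j, a = x j ∧ b = t j := by
  obtain ⟨m, hm⟩ := exists_level ha
  obtain ⟨n, hn⟩ := exists_level hb
  exact points_n hx ht (max m n) a (Kn_mono x t (le_max_left _ _) hm) b
    (Kn_mono x t (le_max_right _ _) hn) h1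

end tower

end Pool.Agent.H585R2.FF
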