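import Mathlib
import Pool.Agent.H585R2.FF7

set_option autoImplicit false
set_option linter.style.haveILetI false
set_option linter.unusedSectionVars false

/-! The field inside the fraction field of a power series ring and its automorphisms. -/

namespace Pool.Agent.H585R2.FF

open Polynomial

/-- a power series with cube `2 (X ^ 6 + X ^ 5 + 1)` -/
theorem exists_cube_root : ∃ φ : PowerSeries ℝ, φ ^ 3 =
    2 * PowerSeries.X ^ 6 + 2 * PowerSeries.X ^ 5 + 2 := by
  let β : PowerSeries ℝ := PowerSeries.binomialSeries ℝ (1 / 3 : ℚ)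
  have hβ : β ^ 3 = 1 + PowerSeries.X := by
    have h1 : β ^ 3 = PowerSeries.binomialSeries ℝ (1 / 3 + 1 / 3 + 1 / 3 : ℚ) := by
      rw [PowerSeries.binomialSeries_add, PowerSeries.binomialSeries_add]
      simp only [β]; ring
    rw [h1]
    have h2 : (1 / 3 + 1 / 3 + 1 / 3 : ℚ) = ((1 : ℕ) : ℚ) := by norm_num
    rw [h2, PowerSeries.binomialSeries_nat, pow_one]
  let a : PowerSeries ℝ := PowerSeries.X ^ 6 + PowerSeries.X ^ 5
  have ha : PowerSeries.HasSubst a :=
    (PowerSeries.HasSubst.X_pow (by norm_num)).add (PowerSeries.HasSubst.X_pow (by norm_num))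
  let s : PowerSeries ℝ →ₐ[ℝ] PowerSeries ℝ := PowerSeries.substAlgHom ha
  have hX : s PowerSeries.X = a := PowerSeries.substAlgHom_X ha
  have h3 : (s β) ^ 3 = 1 + a := by
    rw [← map_pow, hβ, map_add, map_one, hX]
  obtain ⟨c, hc⟩ : ∃ c : ℝ, c ^ 3 = 2 := by
    refine ⟨(2 : ℝ) ^ (1 / 3 : ℝ), ?_⟩
    rw [← Real.rpow_natCast, ← Real.rpow_mul (by norm_num)]
    norm_num
  refine ⟨algebraMap ℝ _ c * s β, ?_⟩
  rw [mul_pow, h3, ← map_pow, hc]
  simp only [a, map_ofNat]
  ring

/-- the power series ring -/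
abbrev PS := MvPowerSeries ℕ ℝ

/-- the ambient field -/
abbrev Om := FractionRing PS

/-- the cube root -/
noncomputable def phi : PowerSeries ℝ := exists_cube_root.choose

theorem phi_spec : phi ^ 3 = 2 * PowerSeries.X ^ 6 + 2 * PowerSeries.X ^ 5 + 2 :=
  exists_cube_root.choose_spec

/-- the variables in the power series ring -/
noncomputable def xs (i : ℕ) : PS := MvPowerSeries.X i

/-- the cube roots in the power series ring -/
noncomputable def ts (i : ℕ) : PS := phi.toMvPowerSeries i

theorem ts_pow (i : ℕ) : ts i ^ 3 = 2 * xs i ^ 6 + 2 * xs i ^ 5 + 2 := by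
  rw [ts, ← map_pow, phi_spec]
  simp only [map_add, map_mul, map_pow, PowerSeries.toMvPowerSeries_X, map_ofNat]
  rfl

/-- the elements `x_i` of the ambient field -/
noncomputable def xo (i : ℕ) : Om := algebraMap PS Om (xs i)

/-- the elements `t_i` of the ambient field -/
noncomputable def tt (i : ℕ) : Om := algebraMap PS Om (ts i)

instance : CharZero PS := charZero_of_injective_algebraMap (R := ℝ)
  (FaithfulSMul.algebraMap_injective ℝ PS)

instance : CharZero Om := charZero_of_injective_algebraMap (R := PS)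
  (IsFractionRing.injective PS Om)

theorem aeval_fP {R : Type*} [CommRing R] [Algebra ℚ R] (a : R) :
    aeval a (fP ℚ) = 2 * a ^ 6 + 2 * a ^ 5 + 2 := by
  simp only [fP, map_add, map_mul, map_pow, aeval_X, map_ofNat]

theorem tt_pow (i : ℕ) : tt i ^ 3 = aeval (xo i) (fP ℚ) := by
  rw [aeval_fP, tt, ← map_pow, ts_pow, xo]
  simp only [map_add, map_mul, map_pow, map_ofNat]

theorem algInd_xo : AlgebraicIndependent ℚ xo := by
  rw [algebraicIndependent_iff]
  intro p hp
  let g : MvPolynomial ℕ ℚ →+* Om := (algebraMap PS Om).comp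
    ((MvPolynomial.coeToMvPowerSeries.ringHom (σ := ℕ) (R := ℝ)).comp
      (MvPolynomial.map (algebraMap ℚ ℝ)))
  have hg : ((MvPolynomial.aeval xo : MvPolynomial ℕ ℚ →ₐ[ℚ] Om) : MvPolynomial ℕ ℚ →+* Om) = g := by
    apply MvPolynomial.ringHom_ext
    · intro q
      have : ((MvPolynomial.aeval xo : MvPolynomial ℕ ℚ →ₐ[ℚ] Om) :
          MvPolynomial ℕ ℚ →+* Om).comp MvPolynomial.C = g.comp MvPolynomial.C := RingHom.ext_rat _ _
      exact congrArg (fun f => f q) this
    · intro i
      simp [g, xo, xs]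
  have h1 : g p = 0 := by rw [← hg]; exact hp
  have h2 : ((MvPolynomial.map (algebraMap ℚ ℝ) p : MvPolynomial ℕ ℝ) : PS) = 0 :=
    IsFractionRing.injective PS Om (by rw [map_zero]; exact h1)
  have h3 : (MvPolynomial.map (algebraMap ℚ ℝ) p : MvPolynomial ℕ ℝ) = 0 :=
    MvPolynomial.coe_injective ℕ ℝ (by rw [h2, MvPolynomial.coe_zero])
  exact MvPolynomial.map_injective _ (algebraMap ℚ ℝ).injective (by rw [h3, map_zero])

/-- the automorphism of the power series ring -/
noncomputable def psAut (π : Equiv.Perm ℕ) : PS ≃+* PS := (MvPowerSeries.renameEquiv ℝ π).toRingEquiv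

theorem psAut_xs (π : Equiv.Perm ℕ) (i : ℕ) : psAut π (xs i) = xs (π i) := by
  change MvPowerSeries.rename π (MvPowerSeries.X i) = _
  rw [MvPowerSeries.rename_X]; rfl

theorem psAut_ts (π : Equiv.Perm ℕ) (i : ℕ) : psAut π (ts i) = ts (π i) := by
  change MvPowerSeries.rename π (phi.toMvPowerSeries i) = _
  rw [PowerSeries.toMvPowerSeries_apply, MvPowerSeries.rename_rename]
  rfl

/-- the automorphism of the ambient field -/
noncomputable def omAut (π : Equiv.Perm ℕ) : Om ≃+* Om :=
  IsFractionRing.ringEquivOfRingEquiv (psAut π)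

theorem omAut_xo (π : Equiv.Perm ℕ) (i : ℕ) : omAut π (xo i) = xo (π i) := by
  rw [omAut, xo, IsFractionRing.ringEquivOfRingEquiv_algebraMap, psAut_xs]; rfl

theorem omAut_tt (π : Equiv.Perm ℕ) (i : ℕ) : omAut π (tt i) = tt (π i) := by
  rw [omAut, tt, IsFractionRing.ringEquivOfRingEquiv_algebraMap, psAut_ts]; rfl

/-- The field. -/
noncomputable abbrev KK : IntermediateField ℚ Om := Kinf xo tt

/-- the ambient automorphism as a `ℚ`-algebra isomorphism -/
noncomputable def omAlg (π : Equiv.Perm ℕ) : Om ≃ₐ[ℚ] Om :=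
  AlgEquiv.ofRingEquiv (f := omAut π) (fun q => by
      have : (omAut π : Om →+* Om).comp (algebraMap ℚ Om) = algebraMap ℚ Om := RingHom.ext_rat _ _
      exact congrArg (fun f => f q) this)

theorem map_KK (π : Equiv.Perm ℕ) : KK.map (omAlg π).toAlgHom = KK := by
  rw [KK, Kinf, IntermediateField.adjoin_map]
  congr 1
  rw [Set.image_union, ← Set.range_comp, ← Set.range_comp]
  have h1 : (⇑(omAlg π).toAlgHom ∘ xo) = xo ∘ π := by
    funext i
    exact omAut_xo π i
  have h2 : (⇑(omAlg π).toAlgHom ∘ tt) = tt ∘ π := by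
    funext i
    exact omAut_tt π i
  rw [h1, h2, Set.range_comp, Set.range_comp, π.surjective.range_eq, Set.image_univ, Set.image_univ]

theorem mem_KK_iff (π : Equiv.Perm ℕ) (y : Om) : omAut π y ∈ KK ↔ y ∈ KK := by
  constructor
  · intro h
    rw [← map_KK π] at h
    obtain ⟨z, hz, h1⟩ := h
    have : z = y := (omAut π).injective h1
    rw [← this]; exact hz
  · intro h
    rw [← map_KK π]
    exact ⟨y, h, rfl⟩

/-- the automorphism of the field `KK` -/
noncomputable def kkAut (π : Equiv.Perm ℕ) : KK ≃+* KK where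
  toFun y := ⟨omAut π y, (mem_KK_iff π y).2 y.2⟩
  invFun y := ⟨(omAut π).symm y, by
    rw [← mem_KK_iff π, RingEquiv.apply_symm_apply]; exact y.2⟩
  left_inv y := Subtype.ext ((omAut π).symm_apply_apply y)
  right_inv y := Subtype.ext ((omAut π).apply_symm_apply y)
  map_mul' y z := Subtype.ext ((omAut π).map_mul y z)
  map_add' y z := Subtype.ext ((omAut π).map_add y z)

/-- the generators in `KK` -/
noncomputable def xk (i : ℕ) : KK := ⟨xo i, IntermediateField.subset_adjoin ℚ _ (Or.inl ⟨i, rfl⟩)⟩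

/-- the generators in `KK` -/
noncomputable def tk (i : ℕ) : KK := ⟨tt i, IntermediateField.subset_adjoin ℚ _ (Or.inr ⟨i, rfl⟩)⟩

theorem adjoin_KK : IntermediateField.adjoin ℚ (Set.range xk ∪ Set.range tk) = ⊤ := by
  rw [eq_top_iff]
  rintro ⟨y, hy⟩ -
  have key : ∀ (y : Om) (hy : y ∈ KK),
      (⟨y, hy⟩ : KK) ∈ IntermediateField.adjoin ℚ (Set.range xk ∪ Set.range tk) := by
    intro y hy
    induction hy using IntermediateField.adjoin_induction with
    | mem y h =>
      apply IntermediateField.subset_adjoin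
      rcases h with ⟨i, rfl⟩ | ⟨i, rfl⟩
      · exact Or.inl ⟨i, rfl⟩
      · exact Or.inr ⟨i, rfl⟩
    | algebraMap q =>
      have h1 : (⟨algebraMap ℚ Om q, IntermediateField.algebraMap_mem _ q⟩ : KK) =
          algebraMap ℚ KK q := by
        apply Subtype.ext
        have : (KK.val : KK →+* Om).comp (algebraMap ℚ KK) = algebraMap ℚ Om := RingHom.ext_rat _ _
        exact (congrArg (fun f => f q) this).symm
      exact h1 ▸ IntermediateField.algebraMap_mem _ q
    | add a b ha hb h1 h2 => exact IntermediateField.add_mem _ h1 h2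
    | inv a ha h1 => exact IntermediateField.inv_mem _ h1
    | mul a b ha hb h1 h2 => exact IntermediateField.mul_mem _ h1 h2
  exact key y hy

theorem algInd_xk : AlgebraicIndependent ℚ xk := by
  rw [algebraicIndependent_iff]
  intro p hp
  refine (algebraicIndependent_iff.1 algInd_xo) p ?_
  have h1 : ((MvPolynomial.aeval xo : MvPolynomial ℕ ℚ →ₐ[ℚ] Om) : MvPolynomial ℕ ℚ →+* Om) =
      (KK.val : KK →+* Om).comp
        ((MvPolynomial.aeval xk : MvPolynomial ℕ ℚ →ₐ[ℚ] KK) : MvPolynomial ℕ ℚ →+* KK) := by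
    apply MvPolynomial.ringHom_ext
    · intro q
      have : ((MvPolynomial.aeval xo : MvPolynomial ℕ ℚ →ₐ[ℚ] Om) :
          MvPolynomial ℕ ℚ →+* Om).comp MvPolynomial.C = ((KK.val : KK →+* Om).comp
        ((MvPolynomial.aeval xk : MvPolynomial ℕ ℚ →ₐ[ℚ] KK) : MvPolynomial ℕ ℚ →+* KK)).comp
          MvPolynomial.C := RingHom.ext_rat _ _
      exact congrArg (fun f => f q) this
    · intro i
      change MvPolynomial.aeval xo (MvPolynomial.X i) =
        KK.val (MvPolynomial.aeval xk (MvPolynomial.X i))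
      rw [MvPolynomial.aeval_X, MvPolynomial.aeval_X]
      rfl
  have h2 := congrArg (fun f => f p) h1
  change MvPolynomial.aeval xo p = KK.val (MvPolynomial.aeval xk p) at h2
  rw [h2, hp]
  exact map_zero _

theorem points_KK {a b : KK} (h : b ^ 3 = 2 * a ^ 6 + 2 * a ^ 5 + 2) :
    ∃ j, a = xk j ∧ b = tk j := by
  obtain ⟨j, h1, h2⟩ := points algInd_xo tt_pow a.2 b.2 (by
    rw [aeval_fP]
    exact congrArg Subtype.val h)
  exact ⟨j, Subtype.ext h1, Subtype.ext h2⟩

theorem tk_pow (i : ℕ) : tk i ^ 3 = 2 * xk i ^ 6 + 2 * xk i ^ 5 + 2 := by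
  apply Subtype.ext
  have := tt_pow i
  rw [aeval_fP] at this
  exact this

theorem unique_aut (π : Equiv.Perm ℕ) (σ : KK ≃+* KK) (hσ : ∀ i, σ (xk i) = xk (π i)) :
    σ = kkAut π := by
  have hinj : Function.Injective xk := algInd_xk.injective
  have ht : ∀ i, σ (tk i) = tk (π i) := by
    intro i
    have h1 := congrArg σ (tk_pow i)
    simp only [map_add, map_mul, map_pow, map_ofNat, hσ] at h1
    obtain ⟨j, h2, h3⟩ := points_KK h1
    rw [h3, ← hinj h2]
  have hx' : ∀ i, kkAut π (xk i) = xk (π i) := fun i => Subtype.ext (omAut_xo π i)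
  have ht' : ∀ i, kkAut π (tk i) = tk (π i) := fun i => Subtype.ext (omAut_tt π i)
  -- the equalizer is an intermediate field
  let E : IntermediateField ℚ KK :=
    { carrier := {y | σ y = kkAut π y}
      mul_mem' := fun {y z} hy hz => by
        change σ (y * z) = kkAut π (y * z)
        rw [map_mul, map_mul, hy, hz]
      add_mem' := fun {y z} hy hz => by
        change σ (y + z) = kkAut π (y + z)
        rw [map_add, map_add, hy, hz]
      algebraMap_mem' := fun q => by
        change σ (algebraMap ℚ KK q) = kkAut π (algebraMap ℚ KK q)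
        simp
      inv_mem' := fun y hy => by
        change σ (y⁻¹) = kkAut π (y⁻¹)
        rw [map_inv₀, map_inv₀, hy] }
  have hE : E = ⊤ := by
    rw [eq_top_iff, ← adjoin_KK, IntermediateField.adjoin_le_iff]
    rintro y (⟨i, rfl⟩ | ⟨i, rfl⟩)
    · change σ (xk i) = kkAut π (xk i)
      rw [hσ, hx']
    · change σ (tk i) = kkAut π (tk i)
      rw [ht, ht']
  ext1 y
  have : y ∈ E := by rw [hE]; trivial
  exact this

end Pool.Agent.H585R2.FF
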